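import Mathlib

/-!
# Data structures for set intersection in the cell probe model
-/

set_option autoImplicit false

namespace Pool.Agent.V8H11.SI

/-- The contents which an algorithm has read: it starts with the list `L` and makes at most `n`
further probes. If the list of the contents read so far is `L` then `next L` is the address of the
next probe (`none`: the algorithm stops), and `mem a` is the content of the cell `a`. -/
def runc {S W : ℕ} (next : List (Fin W) → Option (Fin S)) (mem : Fin S → Fin W) :
    ℕ → List (Fin W) → List (Fin W)
  | 0, L => L
  | n + 1, L =>
    match next L with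
    | none => L
    | some a => runc next mem n (L ++ [mem a])

/-- A data structure for families of `m` subsets of a universe with `u` elements, with `S` cells of
`w` bits. The memory contents `enc F` are an arbitrary function of the family. The query `(i, j)`
probes cells adaptively: the next address (or the decision to stop) and the output are arbitrary
functions of `i`, `j` and of the contents read so far. -/
structure Scheme (m u S w : ℕ) where
  enc : (Fin m → Finset (Fin u)) → Fin S → Fin (2 ^ w)
  next : Fin m → Fin m → List (Fin (2 ^ w)) → Option (Fin S)
  out : Fin m → Fin m → List (Fin (2 ^ w)) → Finset (Fin u)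

namespace Scheme

variable {m u S w : ℕ}

/-- The contents read by the query `(i, j)` on the family `F` in its first `n` probes. -/
def run (D : Scheme m u S w) (F : Fin m → Finset (Fin u)) (i j : Fin m) (n : ℕ) :
    List (Fin (2 ^ w)) :=
  runc (D.next i j) (D.enc F) n []

/-- On the family `F` the query `(i, j)` stops after at most `t` probes, with the correct answer. -/
def Answers (D : Scheme m u S w) (F : Fin m → Finset (Fin u)) (i j : Fin m) (t : ℕ) : Prop :=
  D.next i j (D.run F i j t) = none ∧ D.out i j (D.run F i j t) = F i ∩ F j

/-- On the family `F` the query `(i, j)` reads the cell `a`. -/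
def Reads (D : Scheme m u S w) (F : Fin m → Finset (Fin u)) (i j : Fin m) (a : Fin S) : Prop :=
  ∃ n, D.next i j (D.run F i j n) = some a

/-- The cell `a` is simple for the pair `(i, j)` at the family `F`: all sets but the sets number `i`
and `j` are fixed, and the set of the pairs `(X, Y)` of sets with the same sizes as `F i` and `F j`
is divided into at most `2 ^ b` rectangles on which the content of the cell is constant. (`sym X Y`
is the name of the rectangle which contains `(X, Y)`.) -/
def Simple (D : Scheme m u S w) (b : ℕ) (F : Fin m → Finset (Fin u)) (i j : Fin m) (a : Fin S) :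
    Prop :=
  ∃ sym : Finset (Fin u) → Finset (Fin u) → Fin (2 ^ b), ∀ X X' Y Y' : Finset (Fin u),
    X.card = (F i).card → X'.card = (F i).card → Y.card = (F j).card → Y'.card = (F j).card →
    sym X Y = sym X' Y' → sym X Y' = sym X Y ∧
      D.enc (Function.update (Function.update F i X) j Y) a =
        D.enc (Function.update (Function.update F i X') j Y') a

open Classical in
/-- The joint cells which the query `(i, j)` reads on the family `F`: the cells which are not simple
for the pair `(i, j)` at `F`. -/
noncomputable def joint (D : Scheme m u S w) (b : ℕ) (F : Fin m → Finset (Fin u)) (i j : Fin m) :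
    Finset (Fin S) :=
  Finset.univ.filter fun a => D.Reads F i j a ∧ ¬ D.Simple b F i j a

/-- The content of the cell `a` is a function of the sets with numbers in `I` and of a digest of
`d` bits of every other set. -/
def LocalWith (D : Scheme m u S w) (d : ℕ) (a : Fin S) (I : Finset (Fin m)) : Prop :=
  ∃ f : Fin m → Finset (Fin u) → Fin (2 ^ d), ∀ F F' : Fin m → Finset (Fin u),
    (∀ i ∈ I, F i = F' i) → (∀ i, i ∉ I → f i (F i) = f i (F' i)) → D.enc F a = D.enc F' a

end Scheme

open Classical in
/-- The random data structure `D` (with probabilities `p`) answers every query `(i, j)`, `i ≠ j`, on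
every family of total size `N` correctly, with at most `C (T + op)` probes, with probability at
least `3 / 4`. Here `op` is the size of the intersection. -/
def Solves {m u S w : ℕ} {Ω : Type} [Fintype Ω] (p : Ω → ℝ) (D : Ω → Scheme m u S w)
    (N C T : ℕ) : Prop :=
  (∀ ω, 0 ≤ p ω) ∧ ∑ ω, p ω = 1 ∧
    ∀ F : Fin m → Finset (Fin u), ∑ i, (F i).card = N → ∀ i j : Fin m, i ≠ j →
      3 / 4 ≤ ∑ ω, p ω * (if (D ω).Answers F i j (C * (T + (F i ∩ F j).card)) then 1 else 0)

end Pool.Agent.V8H11.SI
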