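import Pool.Agent.V8H11.SI.Tensor

/-!
# The hard families
-/

set_option autoImplicit false

namespace Pool.Agent.V8H11.SI

open Finset

variable {s K N m : ℕ}

/-- The matched positions of two words, with the letters. -/
def mat (x y : Fin s → Fin K) : Finset (Fin s × Fin K) :=
  (univ.filter fun b => x b = y b).image fun b => (b, x b)

theorem mem_mat {x y : Fin s → Fin K} {b : Fin s} {c : Fin K} :
    (b, c) ∈ mat x y ↔ x b = c ∧ y b = c := by
  unfold mat
  simp only [mem_image, mem_filter, mem_univ, true_and, Prod.mk.injEq]
  constructor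
  · rintro ⟨b', h1, rfl, rfl⟩
    exact ⟨rfl, h1.symm⟩
  · rintro ⟨h1, h2⟩
    exact ⟨b, h1.trans h2.symm, rfl, h1⟩

theorem card_mat (x y : Fin s → Fin K) :
    (mat x y).card = (univ.filter fun b => x b = y b).card := by
  unfold mat
  apply card_image_of_injective
  intro b b' h
  exact (Prod.mk.inj h).1

/-- The elements of the universe which belong to the words. -/
def el (N : ℕ) (z : Fin s × Fin K) : Fin (s * K + N) := Fin.castAdd N (finProdFinEquiv z)

theorem el_inj : Function.Injective (el (s := s) (K := K) N) := by
  intro z z' h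
  exact finProdFinEquiv.injective (Fin.castAdd_injective _ _ h)

/-- The set of a word. -/
def emb (N : ℕ) (x : Fin s → Fin K) : Finset (Fin (s * K + N)) := univ.image fun b => el N (b, x b)

theorem mem_emb {x : Fin s → Fin K} {z : Fin s × Fin K} : el N z ∈ emb N x ↔ x z.1 = z.2 := by
  unfold emb
  simp only [mem_image, mem_univ, true_and]
  constructor
  · rintro ⟨b, hb⟩
    have := el_inj hb
    rw [← this]
  · intro h
    exact ⟨z.1, by rw [h]⟩

theorem card_emb (x : Fin s → Fin K) : (emb N x).card = s := by
  unfold emb
  rw [card_image_of_injective, card_univ, Fintype.card_fin]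
  intro b b' h
  exact (Prod.mk.inj (el_inj h)).1

/-- The additional elements. -/
def extra (s K N e : ℕ) : Finset (Fin (s * K + N)) :=
  (univ.filter fun r : Fin N => r.val < e).image (Fin.natAdd (s * K))

theorem card_extra {e : ℕ} (he : e ≤ N) : (extra s K N e).card = e := by
  unfold extra
  rw [card_image_of_injective _ (Fin.natAdd_injective _ _)]
  have : (univ.filter fun r : Fin N => r.val < e) = (univ : Finset (Fin e)).image (Fin.castLE he) := by
    ext r
    simp only [mem_filter, mem_univ, true_and, mem_image]
    constructor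
    · intro h
      exact ⟨⟨r.val, h⟩, by ext; rfl⟩
    · rintro ⟨r', rfl⟩
      exact r'.2
  rw [this, card_image_of_injective _ (Fin.castLE_injective he), card_univ, Fintype.card_fin]

theorem disj_extra (x : Fin s → Fin K) (e : ℕ) : Disjoint (emb N x) (extra s K N e) := by
  rw [disjoint_left]
  intro z hz hz'
  unfold emb at hz
  unfold extra at hz'
  simp only [mem_image, mem_univ, true_and, mem_filter] at hz hz'
  obtain ⟨b, hb⟩ := hz
  obtain ⟨r, _, hr⟩ := hz'
  have h1 : (el N (b, x b)).val < s * K := by
    exact (finProdFinEquiv (b, x b)).2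
  rw [hb, ← hr] at h1
  simp at h1

/-- The set number `i` of the family, for the word `x`. -/
def part (N m : ℕ) (i : Fin m) (x : Fin s → Fin K) : Finset (Fin (s * K + N)) :=
  emb N x ∪ (if i.val = 0 then extra s K N (N - m * s) else ∅)

theorem card_part (i : Fin m) (x : Fin s → Fin K) :
    (part N m i x).card = s + if i.val = 0 then N - m * s else 0 := by
  unfold part
  split_ifs with h
  · rw [card_union_of_disjoint (disj_extra x _), card_emb, card_extra (Nat.sub_le _ _)]
  · rw [union_empty, card_emb, add_zero]

/-- The family of the words `x`. -/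
def fam (N : ℕ) (x : Fin m → Fin s → Fin K) (i : Fin m) : Finset (Fin (s * K + N)) :=
  part N m i (x i)

theorem sum_fam (hm : 1 ≤ m) (hN : m * s ≤ N) (x : Fin m → Fin s → Fin K) :
    ∑ i, (fam N x i).card = N := by
  unfold fam
  simp only [card_part]
  rw [sum_add_distrib, sum_const, card_univ, Fintype.card_fin, smul_eq_mul]
  obtain ⟨m, rfl⟩ : ∃ m', m = m' + 1 := ⟨m - 1, by omega⟩
  rw [Fin.sum_univ_succ]
  simp
  omega

theorem part_inter {i j : Fin m} (hij : i ≠ j) (x y : Fin s → Fin K) :
    part N m i x ∩ part N m j y = (mat x y).image (el N) := by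
  ext z
  simp only [Finset.mem_inter, mem_image]
  constructor
  · rintro ⟨h1, h2⟩
    unfold part at h1 h2
    rw [mem_union] at h1 h2
    have hd : ∀ w : Fin s → Fin K, z ∈ emb N w → z ∉ extra s K N (N - m * s) := fun w hw =>
      disjoint_left.mp (disj_extra w _) hw
    have key : z ∈ emb N x ∧ z ∈ emb N y := by
      rcases h1 with h1 | h1
      · refine ⟨h1, ?_⟩
        rcases h2 with h2 | h2
        · exact h2
        · split_ifs at h2
          · exact absurd h2 (hd x h1)
          · exact absurd h2 (notMem_empty _)
      · split_ifs at h1 with hi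
        · rcases h2 with h2 | h2
          · exact absurd h1 (hd y h2)
          · split_ifs at h2 with hj
            · exact absurd (Fin.ext (hi.trans hj.symm)) hij
            · exact absurd h2 (notMem_empty _)
        · exact absurd h1 (notMem_empty _)
    obtain ⟨h3, h4⟩ := key
    have h5 := h3
    unfold emb at h5
    simp only [mem_image, mem_univ, true_and] at h5
    obtain ⟨b, rfl⟩ := h5
    exact ⟨(b, x b), mem_mat.mpr ⟨rfl, mem_emb.mp h4⟩, rfl⟩
  · rintro ⟨⟨b, c⟩, h1, rfl⟩
    rw [mem_mat] at h1
    unfold part
    exact ⟨mem_union_left _ (mem_emb.mpr h1.1), mem_union_left _ (mem_emb.mpr h1.2)⟩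

theorem emb_inj : Function.Injective (emb (s := s) (K := K) N) := by
  intro x y h
  funext b
  have h1 : el N (b, x b) ∈ emb N x := mem_emb.mpr rfl
  rw [h] at h1
  exact (mem_emb.mp h1).symm

theorem part_inj (i : Fin m) : Function.Injective (part (s := s) (K := K) N m i) := by
  intro x y h
  funext b
  have h1 : el N (b, x b) ∈ part N m i x := mem_union_left _ (mem_emb.mpr rfl)
  rw [h] at h1
  unfold part at h1
  rw [mem_union] at h1
  rcases h1 with h1 | h1
  · exact (mem_emb.mp h1).symm
  · have h2 : el N (b, x b) ∈ emb N x := mem_emb.mpr rfl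
    split_ifs at h1
    · exact absurd h1 (disjoint_left.mp (disj_extra x _) h2)
    · exact absurd h1 (notMem_empty _)

theorem fam_inj : Function.Injective (fam (m := m) (s := s) (K := K) N) := by
  intro x y h
  funext i
  exact part_inj i (congrFun h i)

theorem fam_update (z : Fin m → Fin s → Fin K) {i j : Fin m} (x y : Fin s → Fin K) :
    fam N (Function.update (Function.update z i x) j y) =
      Function.update (Function.update (fam N z) i (part N m i x)) j (part N m j y) := by
  funext l
  unfold fam
  by_cases h1 : l = j
  · subst h1; simp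
  · by_cases h2 : l = i
    · subst h2; simp [Function.update_of_ne h1]
    · simp [Function.update_of_ne h1, Function.update_of_ne h2]

/-! ### averages -/

/-- Replacing one coordinate by a random value does not change averages. -/
theorem sum_update {ι A M : Type} [Fintype ι] [DecidableEq ι] [Fintype A] [AddCommMonoid M]
    (i : ι) (h : (ι → A) → M) :
    ∑ z : ι → A, ∑ a : A, h (Function.update z i a) = Fintype.card A • ∑ x, h x := by
  classical
  have hinv : Function.Involutive fun q : (ι → A) × A => (Function.update q.1 i q.2, q.1 i) := by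
    rintro ⟨z, a⟩
    simp
  have h1 : ∑ q : (ι → A) × A, h (Function.update q.1 i q.2) = ∑ q : (ι → A) × A, h q.1 :=
    Fintype.sum_equiv hinv.toPerm _ _ fun q => rfl
  rw [Fintype.sum_prod_type, Fintype.sum_prod_type] at h1
  rw [h1, Finset.sum_congr rfl fun x _ => Finset.sum_const _, ← Finset.smul_sum, card_univ]

theorem sum_fibre {M : Type} [AddCommMonoid M] {i j : Fin m} (h : (Fin m → Fin s → Fin K) → M) :
    ∑ z, ∑ x, ∑ y, h (Function.update (Function.update z i x) j y) =
      (K ^ s * K ^ s) • ∑ x, h x := by
  rw [sum_update i (fun z' => ∑ y, h (Function.update z' j y)), sum_update j h, smul_smul]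
  simp [Fintype.card_fin]

/-- The number of matches on average. -/
theorem sum_matches (K s m : ℕ) {i j : Fin m} (hij : i ≠ j) :
    K * ∑ x : Fin m → Fin s → Fin K, (mat (x i) (x j)).card =
      s * Fintype.card (Fin m → Fin s → Fin K) := by
  classical
  have h1 : ∀ b : Fin s, K * ∑ x : Fin m → Fin s → Fin K, (if x i b = x j b then 1 else 0) =
      Fintype.card (Fin m → Fin s → Fin K) := by
    intro b
    have hinv : Function.Involutive fun q : (Fin m → Fin s → Fin K) × Fin K =>
        (Function.update q.1 i (Function.update (q.1 i) b q.2), q.1 i b) := by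
      rintro ⟨z, a⟩
      simp
    have h2 : ∑ q : (Fin m → Fin s → Fin K) × Fin K,
        (if (Function.update q.1 i (Function.update (q.1 i) b q.2)) i b =
          (Function.update q.1 i (Function.update (q.1 i) b q.2)) j b then 1 else 0) =
        ∑ q : (Fin m → Fin s → Fin K) × Fin K, (if q.1 i b = q.1 j b then 1 else 0) :=
      Fintype.sum_equiv hinv.toPerm _ _ fun q => rfl
    rw [Fintype.sum_prod_type, Fintype.sum_prod_type] at h2
    simp only [Function.update_self, Function.update_of_ne hij.symm, Finset.sum_ite_eq',
      Finset.mem_univ, if_true] at h2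
    have h4 : ∑ x : Fin m → Fin s → Fin K, ∑ _a : Fin K, (if x i b = x j b then 1 else 0) =
        K * ∑ x : Fin m → Fin s → Fin K, (if x i b = x j b then 1 else 0) := by
      rw [Finset.mul_sum]
      refine Finset.sum_congr rfl fun x _ => ?_
      rw [Finset.sum_const, card_univ, Fintype.card_fin, smul_eq_mul]
    rw [h4] at h2
    rw [← h2, Finset.sum_const, card_univ, smul_eq_mul, mul_one]
  have h3 : ∀ x : Fin m → Fin s → Fin K, (mat (x i) (x j)).card =
      ∑ b : Fin s, if x i b = x j b then 1 else 0 := by
    intro x
    rw [card_mat, Finset.card_filter]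
  rw [Finset.sum_congr rfl fun x _ => h3 x, Finset.sum_comm, Finset.mul_sum,
    Finset.sum_congr rfl fun b _ => h1 b, Finset.sum_const, card_univ, Fintype.card_fin,
    smul_eq_mul]

end Pool.Agent.V8H11.SI
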