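import Pool.Agent.V8H11.SI.Main

/-!
# The final form
-/

set_option autoImplicit false

namespace Pool.Agent.V8H11.SI

open Finset

/-- A cell whose content depends on few sets, and on digests of the others, is simple for all pairs
which are not among these sets. -/
theorem simple_of_local {m u S w d b : ℕ} {D : Scheme m u S w} {a : Fin S} {I : Finset (Fin m)}
    (h : D.LocalWith d a I) (hb : w + d ≤ b) (F : Fin m → Finset (Fin u)) {i j : Fin m}
    (hij : i ≠ j) (hI : i ∉ I ∨ j ∉ I) : D.Simple b F i j a := by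
  obtain ⟨f, hf⟩ := h
  have hle : 2 ^ w * 2 ^ d ≤ 2 ^ b := by
    rw [← pow_add]
    exact Nat.pow_le_pow_right (by norm_num) hb
  have hcode : ∃ g : Fin (2 ^ w) × Fin (2 ^ d) → Fin (2 ^ b), Function.Injective g :=
    ⟨fun z => Fin.castLE hle (finProdFinEquiv z), fun z z' hz =>
      finProdFinEquiv.injective (Fin.castLE_injective hle hz)⟩
  obtain ⟨g, hg⟩ := hcode
  -- replacing one set outside of `I` by a set with the same digest
  have hrepl : ∀ (G G' : Fin m → Finset (Fin u)) (l : Fin m), l ∉ I → (∀ l', l' ≠ l → G l' = G' l') →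
      f l (G l) = f l (G' l) → D.enc G a = D.enc G' a := by
    intro G G' l hl h1 h2
    apply hf
    · intro l' hl'
      exact h1 l' (fun h3 => hl (h3 ▸ hl'))
    · intro l' _
      by_cases h3 : l' = l
      · rw [h3, h2]
      · rw [h1 l' h3]
  rcases hI with hI | hI
  · refine ⟨fun X Y => g (D.enc (Function.update (Function.update F i X) j Y) a, f i X), ?_⟩
    intro X X' Y Y' _ _ _ _ h1
    have h2 := hg h1
    rw [Prod.mk.injEq] at h2
    refine ⟨?_, h2.1⟩
    have h3 : D.enc (Function.update (Function.update F i X) j Y') a =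
        D.enc (Function.update (Function.update F i X') j Y') a := by
      apply hrepl _ _ i hI
      · intro l' hl'
        by_cases h4 : l' = j
        · subst h4; simp
        · simp [Function.update_of_ne h4, Function.update_of_ne hl']
      · simp [Function.update_of_ne hij, h2.2]
    dsimp only
    rw [h3, ← h2.1]
  · refine ⟨fun X Y => g (D.enc (Function.update (Function.update F i X) j Y) a, f j Y), ?_⟩
    intro X X' Y Y' _ _ _ _ h1
    have h2 := hg h1
    rw [Prod.mk.injEq] at h2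
    refine ⟨?_, h2.1⟩
    have h3 : D.enc (Function.update (Function.update F i X) j Y') a =
        D.enc (Function.update (Function.update F i X) j Y) a := by
      apply hrepl _ _ j hI
      · intro l' hl'
        rw [Function.update_of_ne hl', Function.update_of_ne hl']
      · simp [h2.2]
    dsimp only
    rw [h3, h2.2]

open Classical in
theorem final (N w b C T : ℕ) (hw : 1 ≤ w) (hb : 1 ≤ b) (hC : 1 ≤ C) (hT : 1 ≤ T)
    (hN : 4160 * (C * b * T) ≤ N) :
    ∃ (m u : ℕ) (𝓕 : Finset (Fin m → Finset (Fin u))), 2 ≤ m ∧ m ≤ N ∧ u ≤ N ^ 2 ∧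
      N ≤ 3120 * (C * b * T) * m ∧ 𝓕.Nonempty ∧ (∀ F ∈ 𝓕, ∑ i, (F i).card = N) ∧
      ∀ (S : ℕ) (D : Scheme m u S w) (i j : Fin m), i ≠ j →
        (T : ℝ) * (((𝓕.filter fun F => D.Answers F i j (C * (T + (F i ∩ F j).card))).card : ℝ) -
          (𝓕.card : ℝ) / 2) ≤ w * ∑ F ∈ 𝓕, ((D.joint b F i j).card : ℝ) := by
  obtain ⟨K, hK⟩ : ∃ K, K = 130 * (C * b) := ⟨_, rfl⟩
  obtain ⟨s, hs⟩ : ∃ s, s = 16 * T * K := ⟨_, rfl⟩
  have hCb : 1 ≤ C * b := Nat.mul_pos hC hb
  have hs2 : s = 2080 * (C * b * T) := by rw [hs, hK]; ring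
  have hs0 : 1 ≤ s := by
    rw [hs2]
    have : 1 ≤ C * b * T := Nat.mul_pos hCb hT
    omega
  obtain ⟨m, hm⟩ : ∃ m, m = N / s := ⟨_, rfl⟩
  have hm1 : m * s ≤ N := by rw [hm]; exact Nat.div_mul_le_self N s
  have hm2 : N < (m + 1) * s := by
    have := Nat.lt_div_mul_add (a := N) (b := s) (by omega)
    rw [← hm] at this
    nlinarith
  have hm3 : 2 ≤ m := by
    rw [hm, Nat.le_div_iff_mul_le (by omega)]
    omega
  have hKs : K ≤ s := by rw [hs]; nlinarith
  refine ⟨m, s * K + N, univ.image (fam (m := m) (s := s) (K := K) N), hm3, ?_, ?_, ?_, ?_, ?_, ?_⟩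
  · nlinarith
  · have h1 : 2 * s ≤ N := by nlinarith
    have h2 : 4160 ≤ N := by
      have : 1 ≤ C * b * T := Nat.mul_pos hCb hT
      omega
    have h3 : s * K ≤ s * s := Nat.mul_le_mul_left s hKs
    have h4 : (2 * s) * (2 * s) ≤ N * N := Nat.mul_le_mul h1 h1
    have h5 : 4160 * N ≤ N * N := Nat.mul_le_mul_right N h2
    nlinarith
  · have h1 : (m + 1) * s ≤ (3120 * (C * b * T)) * m := by
      rw [hs2]
      nlinarith [Nat.mul_le_mul_right (C * b * T) hm3]
    omega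
  · rw [image_nonempty]
    have : Nonempty (Fin m → Fin s → Fin K) := ⟨fun _ _ => ⟨0, by omega⟩⟩
    exact univ_nonempty
  · intro F hF
    obtain ⟨x, _, rfl⟩ := mem_image.mp hF
    exact sum_fam (by omega) hm1 x
  · intro S D i j hij
    have h1 := pair_words hC hb hT hw hK hs D hij
    have hinj := fam_inj (m := m) (s := s) (K := K) (N := N)
    rw [sum_image fun x _ y _ h => hinj h, filter_image, card_image_of_injective _ hinj,
      card_image_of_injective _ hinj, card_univ]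
    exact h1

open Classical in
/-- The bound for random data structures. -/
theorem rand_bound {N w b C T m u : ℕ} {𝓕 : Finset (Fin m → Finset (Fin u))}
    (hC : 1 ≤ C) (hb : 1 ≤ b) (hT : 1 ≤ T) (hw : 1 ≤ w) (hm : 2 ≤ m)
    (hNm : N ≤ 3120 * (C * b * T) * m) (hne : 𝓕.Nonempty) (htot : ∀ F ∈ 𝓕, ∑ i, (F i).card = N)
    (hpair : ∀ (S : ℕ) (D : Scheme m u S w) (i j : Fin m), i ≠ j →
      (T : ℝ) * (((𝓕.filter fun F => D.Answers F i j (C * (T + (F i ∩ F j).card))).card : ℝ) -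
        (𝓕.card : ℝ) / 2) ≤ w * ∑ F ∈ 𝓕, ((D.joint b F i j).card : ℝ))
    {S : ℕ} {Ω : Type} [Fintype Ω] {p : Ω → ℝ} {D : Ω → Scheme m u S w} (hD : Solves p D N C T)
    {R : ℝ} (hR : ∀ ω, ∀ F ∈ 𝓕, ∑ i, ∑ j ∈ univ.erase i, (((D ω).joint b F i j).card : ℝ) ≤ R) :
    (N : ℝ) ^ 2 ≤ 10 ^ 8 * ((C : ℝ) ^ 2 * b ^ 2 * w * T * R) := by
  obtain ⟨hp0, hp1, hsol⟩ := hD
  have hQ : (0 : ℝ) < 𝓕.card := by exact_mod_cast hne.card_pos
  have hT0 : (1 : ℝ) ≤ T := by exact_mod_cast hT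
  have hw0 : (1 : ℝ) ≤ w := by exact_mod_cast hw
  have hC0 : (1 : ℝ) ≤ C := by exact_mod_cast hC
  have hb0 : (1 : ℝ) ≤ b := by exact_mod_cast hb
  have hm0 : (2 : ℝ) ≤ m := by exact_mod_cast hm
  -- one pair
  have h1 : ∀ i j : Fin m, i ≠ j → (T : ℝ) * ((𝓕.card : ℝ) / 4) ≤
      w * ∑ ω, p ω * ∑ F ∈ 𝓕, (((D ω).joint b F i j).card : ℝ) := by
    intro i j hij
    have h2 : ∑ ω, p ω * ((T : ℝ) * (((𝓕.filter fun F =>
        (D ω).Answers F i j (C * (T + (F i ∩ F j).card))).card : ℝ) - (𝓕.card : ℝ) / 2)) ≤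
        ∑ ω, p ω * (w * ∑ F ∈ 𝓕, (((D ω).joint b F i j).card : ℝ)) :=
      sum_le_sum fun ω _ => mul_le_mul_of_nonneg_left (hpair S (D ω) i j hij) (hp0 ω)
    have h3 : (3 / 4 : ℝ) * 𝓕.card ≤ ∑ ω, p ω * ((𝓕.filter fun F =>
        (D ω).Answers F i j (C * (T + (F i ∩ F j).card))).card : ℝ) := by
      calc (3 / 4 : ℝ) * 𝓕.card = ∑ _F ∈ 𝓕, (3 / 4 : ℝ) := by
            rw [sum_const, nsmul_eq_mul]; ring
        _ ≤ ∑ F ∈ 𝓕, ∑ ω, p ω *
            (if (D ω).Answers F i j (C * (T + (F i ∩ F j).card)) then 1 else 0) :=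
            sum_le_sum fun F hF => hsol F (htot F hF) i j hij
        _ = _ := by
            rw [sum_comm]
            refine sum_congr rfl fun ω _ => ?_
            rw [← mul_sum, card_filter]
            push_cast
            rfl
    have h4 : ∑ ω, p ω * ((T : ℝ) * (((𝓕.filter fun F =>
        (D ω).Answers F i j (C * (T + (F i ∩ F j).card))).card : ℝ) - (𝓕.card : ℝ) / 2)) =
        T * (∑ ω, p ω * ((𝓕.filter fun F =>
          (D ω).Answers F i j (C * (T + (F i ∩ F j).card))).card : ℝ) - (𝓕.card : ℝ) / 2) := by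
      have e : ∀ ω, p ω * ((T : ℝ) * (((𝓕.filter fun F =>
        (D ω).Answers F i j (C * (T + (F i ∩ F j).card))).card : ℝ) - (𝓕.card : ℝ) / 2)) =
          T * (p ω * ((𝓕.filter fun F =>
        (D ω).Answers F i j (C * (T + (F i ∩ F j).card))).card : ℝ)) -
          p ω * (T * ((𝓕.card : ℝ) / 2)) := fun ω => by ring
      rw [sum_congr rfl fun ω _ => e ω, sum_sub_distrib, ← mul_sum, ← sum_mul, hp1]
      ring
    have h5 : ∑ ω, p ω * (w * ∑ F ∈ 𝓕, (((D ω).joint b F i j).card : ℝ)) =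
        w * ∑ ω, p ω * ∑ F ∈ 𝓕, (((D ω).joint b F i j).card : ℝ) := by
      rw [mul_sum]
      exact sum_congr rfl fun ω _ => by ring
    rw [h4, h5] at h2
    refine le_trans ?_ h2
    apply mul_le_mul_of_nonneg_left _ (by linarith)
    linarith
  -- all pairs
  have h2 : (m : ℝ) * (m - 1) * ((T : ℝ) * ((𝓕.card : ℝ) / 4)) ≤ w * (𝓕.card * R) := by
    have h3 : ∑ i : Fin m, ∑ j ∈ univ.erase i, (T : ℝ) * ((𝓕.card : ℝ) / 4) ≤
        ∑ i : Fin m, ∑ j ∈ univ.erase i, w * ∑ ω, p ω * ∑ F ∈ 𝓕,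
          (((D ω).joint b F i j).card : ℝ) :=
      sum_le_sum fun i _ => sum_le_sum fun j hj => h1 i j (ne_of_mem_erase hj).symm
    have h4 : ∑ i : Fin m, ∑ j ∈ univ.erase i, (T : ℝ) * ((𝓕.card : ℝ) / 4) =
        (m : ℝ) * (m - 1) * ((T : ℝ) * ((𝓕.card : ℝ) / 4)) := by
      have e : ∀ i : Fin m, ∑ _j ∈ univ.erase i, (T : ℝ) * ((𝓕.card : ℝ) / 4) =
          ((m : ℝ) - 1) * ((T : ℝ) * ((𝓕.card : ℝ) / 4)) := by
        intro i
        rw [sum_const, card_erase_of_mem (mem_univ i), card_univ, Fintype.card_fin, nsmul_eq_mul,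
          Nat.cast_sub (by omega), Nat.cast_one]
      rw [sum_congr rfl fun i _ => e i, sum_const, card_univ, Fintype.card_fin, nsmul_eq_mul]
      ring
    have h5 : ∑ i : Fin m, ∑ j ∈ univ.erase i, w * ∑ ω, p ω * ∑ F ∈ 𝓕,
        (((D ω).joint b F i j).card : ℝ) =
        w * ∑ ω, p ω * ∑ F ∈ 𝓕, ∑ i : Fin m, ∑ j ∈ univ.erase i,
          (((D ω).joint b F i j).card : ℝ) := by
      have e1 : ∀ i : Fin m, ∑ j ∈ univ.erase i, w * ∑ ω, p ω * ∑ F ∈ 𝓕,
          (((D ω).joint b F i j).card : ℝ) =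
          w * ∑ ω, p ω * ∑ F ∈ 𝓕, ∑ j ∈ univ.erase i, (((D ω).joint b F i j).card : ℝ) := by
        intro i
        rw [← mul_sum, sum_comm]
        congr 1
        refine sum_congr rfl fun ω _ => ?_
        rw [← mul_sum, sum_comm]
      rw [sum_congr rfl fun i _ => e1 i, ← mul_sum, sum_comm]
      congr 1
      refine sum_congr rfl fun ω _ => ?_
      rw [← mul_sum, sum_comm]
    have h6 : ∑ ω, p ω * ∑ F ∈ 𝓕, ∑ i : Fin m, ∑ j ∈ univ.erase i,
        (((D ω).joint b F i j).card : ℝ) ≤ 𝓕.card * R := by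
      calc _ ≤ ∑ ω, p ω * ∑ _F ∈ 𝓕, R :=
            sum_le_sum fun ω _ => mul_le_mul_of_nonneg_left
              (sum_le_sum fun F hF => hR ω F hF) (hp0 ω)
        _ = _ := by rw [← sum_mul, hp1, one_mul, sum_const, nsmul_eq_mul]
    rw [h4, h5] at h3
    exact le_trans h3 (mul_le_mul_of_nonneg_left h6 (by linarith))
  have h3 : (m : ℝ) * (m - 1) * T ≤ 4 * w * R := by
    have e1 : (𝓕.card : ℝ) * ((m : ℝ) * (m - 1) * T) ≤ 𝓕.card * (4 * w * R) := by
      calc (𝓕.card : ℝ) * ((m : ℝ) * (m - 1) * T) =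
            4 * ((m : ℝ) * (m - 1) * ((T : ℝ) * ((𝓕.card : ℝ) / 4))) := by ring
        _ ≤ 4 * (w * (𝓕.card * R)) := by gcongr
        _ = _ := by ring
    exact le_of_mul_le_mul_left e1 hQ
  have h4 : (m : ℝ) ^ 2 * T ≤ 8 * w * R := by
    have e1 : (m : ℝ) ^ 2 ≤ 2 * (m * (m - 1)) := by nlinarith
    calc (m : ℝ) ^ 2 * T ≤ 2 * (m * (m - 1)) * T := by gcongr
      _ = 2 * (m * (m - 1) * T) := by ring
      _ ≤ 2 * (4 * w * R) := by gcongr
      _ = _ := by ring
  have h5 : (N : ℝ) ≤ 3120 * (C * b * T) * m := by exact_mod_cast hNm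
  have hR0 : 0 ≤ w * R := by
    have : 0 ≤ (m : ℝ) ^ 2 * T := by positivity
    linarith
  calc (N : ℝ) ^ 2 ≤ (3120 * (C * b * T) * m) ^ 2 := by gcongr
    _ = 3120 ^ 2 * ((C : ℝ) ^ 2 * b ^ 2 * T) * ((m : ℝ) ^ 2 * T) := by ring
    _ ≤ 3120 ^ 2 * ((C : ℝ) ^ 2 * b ^ 2 * T) * (8 * w * R) := by gcongr
    _ = (3120 ^ 2 * 8) * (((C : ℝ) ^ 2 * b ^ 2 * T) * (w * R)) := by ring
    _ ≤ 10 ^ 8 * (((C : ℝ) ^ 2 * b ^ 2 * T) * (w * R)) := by
        apply mul_le_mul_of_nonneg_right (by norm_num)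
        exact mul_nonneg (by positivity) hR0
    _ = _ := by ring

/-- The joint cells of local structures. -/
theorem joint_local {m u S w d b : ℕ} {D : Scheme m u S w} {I : Fin S → Finset (Fin m)}
    (h : ∀ a, D.LocalWith d a (I a)) (hb : w + d ≤ b) (F : Fin m → Finset (Fin u)) :
    ∑ i, ∑ j ∈ univ.erase i, ((D.joint b F i j).card : ℝ) ≤
      ∑ a, ((I a).card : ℝ) * ((I a).card - 1) := by
  classical
  have h1 : ∀ i j : Fin m, i ≠ j → ((D.joint b F i j).card : ℝ) ≤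
      ∑ a, (if i ∈ I a ∧ j ∈ I a then 1 else 0) := by
    intro i j hij
    have h2 : D.joint b F i j ⊆ univ.filter fun a => i ∈ I a ∧ j ∈ I a := by
      intro a ha
      rw [mem_filter]
      refine ⟨mem_univ _, ?_⟩
      by_contra hcon
      unfold Scheme.joint at ha
      rw [mem_filter] at ha
      exact ha.2.2 (simple_of_local (h a) hb F hij (by tauto))
    have h3 := card_le_card h2
    rw [card_filter] at h3
    exact_mod_cast h3
  calc ∑ i, ∑ j ∈ univ.erase i, ((D.joint b F i j).card : ℝ)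
      ≤ ∑ i : Fin m, ∑ j ∈ univ.erase i, ∑ a, (if i ∈ I a ∧ j ∈ I a then (1 : ℝ) else 0) :=
        sum_le_sum fun i _ => sum_le_sum fun j hj => h1 i j (ne_of_mem_erase hj).symm
    _ = ∑ a, ∑ i : Fin m, ∑ j ∈ univ.erase i, (if i ∈ I a ∧ j ∈ I a then (1 : ℝ) else 0) := by
        have e0 : ∀ i : Fin m, ∑ j ∈ univ.erase i, ∑ a, (if i ∈ I a ∧ j ∈ I a then (1 : ℝ) else 0) =
            ∑ a, ∑ j ∈ univ.erase i, (if i ∈ I a ∧ j ∈ I a then (1 : ℝ) else 0) :=
          fun i => sum_comm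
        rw [sum_congr rfl fun i _ => e0 i, sum_comm]
    _ = ∑ a, ((I a).card : ℝ) * ((I a).card - 1) := by
        refine sum_congr rfl fun a _ => ?_
        have e1 : ∀ i : Fin m, ∑ j ∈ univ.erase i, (if i ∈ I a ∧ j ∈ I a then (1 : ℝ) else 0) =
            if i ∈ I a then ((I a).card : ℝ) - 1 else 0 := by
          intro i
          by_cases hi : i ∈ I a
          · simp only [hi, true_and, if_true]
            rw [← sum_filter, sum_const, nsmul_eq_mul, mul_one]
            have e2 : (univ.erase i).filter (fun j => j ∈ I a) = (I a).erase i := by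
              ext j
              simp [and_comm]
            rw [e2, card_erase_of_mem hi, Nat.cast_sub (card_pos.mpr ⟨i, hi⟩), Nat.cast_one]
          · simp [hi]
        rw [sum_congr rfl fun i _ => e1 i, ← sum_filter, sum_const, nsmul_eq_mul]
        simp

end Pool.Agent.V8H11.SI
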