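import Mathlib

/-!
A one-coordinate inequality: two functions on a set with `K` points, averaged over pairs of
distinct points.
-/

namespace Pool.Agent.V8H11.SI

open Finset

section

variable {K : ℕ}

/-- Average. -/
noncomputable def av (f : Fin K → ℝ) : ℝ := (∑ a, f a) / K

theorem av_nonneg {f : Fin K → ℝ} (hf : ∀ a, 0 ≤ f a) : 0 ≤ av f := by
  unfold av
  exact div_nonneg (Finset.sum_nonneg (fun a _ => hf a)) (Nat.cast_nonneg _)

theorem av_eq_sum (f : Fin K → ℝ) : av f = ∑ a, (1 / (K : ℝ)) * f a := by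
  unfold av
  rw [← Finset.mul_sum]
  ring

/-- Power mean inequality. -/
theorem av_rpow_le (hK : 0 < K) {f : Fin K → ℝ} (hf : ∀ a, 0 ≤ f a) {p : ℝ} (hp : 1 ≤ p) :
    av f ^ p ≤ av (fun a => f a ^ p) := by
  rw [av_eq_sum, av_eq_sum]
  apply Real.rpow_arith_mean_le_arith_mean_rpow
  · intro i _
    positivity
  · have : (K : ℝ) ≠ 0 := by exact_mod_cast hK.ne'
    simp [this]
  · intro i _
    exact hf i
  · exact hp

/-- Interpolation between the exponents `1/2`, `1` and `1 + θ`. -/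
theorem av_interp (hK : 0 < K) {f : Fin K → ℝ} (hf : ∀ a, 0 ≤ f a) {θ : ℝ} (hθ : 0 < θ) :
    av f ^ (1 + 2 * θ) ≤ (av (fun a => Real.sqrt (f a))) ^ (2 * θ) * av (fun a => f a ^ (1 + θ)) := by
  have hK0 : (0 : ℝ) < K := by exact_mod_cast hK
  have h12 : (0 : ℝ) < 1 + 2 * θ := by linarith
  set a : ℝ := 2 * θ / (1 + 2 * θ) with ha
  have ha0 : 0 < a := by positivity
  have hb0 : 0 < 1 / (1 + 2 * θ) := by positivity
  have hab : a + 1 / (1 + 2 * θ) = 1 := by
    rw [ha]; field_simp; ring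
  -- Hölder
  have hpq : (1 / a).HolderConjugate (1 + 2 * θ) := by
    rw [Real.holderConjugate_iff]
    constructor
    · rw [one_lt_div ha0]
      linarith
    · rw [one_div, inv_inv]
      rw [← one_div]
      exact hab
  have hH := Real.inner_le_Lp_mul_Lq (Finset.univ : Finset (Fin K))
    (fun i => (Real.sqrt (f i)) ^ a) (fun i => (f i ^ (1 + θ)) ^ (1 / (1 + 2 * θ))) hpq
  have e1 : ∀ i : Fin K, (Real.sqrt (f i)) ^ a * (f i ^ (1 + θ)) ^ (1 / (1 + 2 * θ)) = f i := by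
    intro i
    rcases (hf i).eq_or_lt with h0 | h0
    · rw [← h0, Real.sqrt_zero, Real.zero_rpow ha0.ne', zero_mul]
    · rw [Real.sqrt_eq_rpow, ← Real.rpow_mul h0.le, ← Real.rpow_mul h0.le, ← Real.rpow_add h0]
      have : 1 / 2 * a + (1 + θ) * (1 / (1 + 2 * θ)) = 1 := by
        rw [ha]; field_simp; ring
      rw [this, Real.rpow_one]
  have e2 : ∀ i : Fin K, |(Real.sqrt (f i)) ^ a| ^ (1 / a) = Real.sqrt (f i) := by
    intro i
    rw [abs_of_nonneg (Real.rpow_nonneg (Real.sqrt_nonneg _) _),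
      ← Real.rpow_mul (Real.sqrt_nonneg _)]
    have : a * (1 / a) = 1 := by field_simp
    rw [this, Real.rpow_one]
  have e3 : ∀ i : Fin K, |(f i ^ (1 + θ)) ^ (1 / (1 + 2 * θ))| ^ (1 + 2 * θ) = f i ^ (1 + θ) := by
    intro i
    have h0 : 0 ≤ f i ^ (1 + θ) := Real.rpow_nonneg (hf i) _
    rw [abs_of_nonneg (Real.rpow_nonneg h0 _), ← Real.rpow_mul h0]
    have : 1 / (1 + 2 * θ) * (1 + 2 * θ) = 1 := by field_simp
    rw [this, Real.rpow_one]
  simp only [e1, e2, e3] at hH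
  rw [one_div_one_div] at hH
  have hs0 : 0 ≤ ∑ i : Fin K, Real.sqrt (f i) :=
    Finset.sum_nonneg (fun i _ => Real.sqrt_nonneg _)
  have hp0 : 0 ≤ ∑ i : Fin K, f i ^ (1 + θ) :=
    Finset.sum_nonneg (fun i _ => Real.rpow_nonneg (hf i) _)
  have hf0 : 0 ≤ ∑ i : Fin K, f i := Finset.sum_nonneg (fun i _ => hf i)
  -- raise to the power 1 + 2θ
  have h2 : (∑ i : Fin K, f i) ^ (1 + 2 * θ) ≤
      (∑ i : Fin K, Real.sqrt (f i)) ^ (2 * θ) * ∑ i : Fin K, f i ^ (1 + θ) := by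
    calc (∑ i : Fin K, f i) ^ (1 + 2 * θ)
        ≤ ((∑ i : Fin K, Real.sqrt (f i)) ^ a * (∑ i : Fin K, f i ^ (1 + θ)) ^ (1 / (1 + 2 * θ)))
            ^ (1 + 2 * θ) := Real.rpow_le_rpow hf0 hH h12.le
      _ = (∑ i : Fin K, Real.sqrt (f i)) ^ (2 * θ) * ∑ i : Fin K, f i ^ (1 + θ) := by
          rw [Real.mul_rpow (Real.rpow_nonneg hs0 _) (Real.rpow_nonneg hp0 _),
            ← Real.rpow_mul hs0, ← Real.rpow_mul hp0]
          have t1 : a * (1 + 2 * θ) = 2 * θ := by rw [ha]; field_simp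
          have t2 : 1 / (1 + 2 * θ) * (1 + 2 * θ) = 1 := by field_simp
          rw [t1, t2, Real.rpow_one]
  unfold av
  rw [Real.div_rpow hf0 hK0.le, Real.div_rpow hs0 hK0.le, div_mul_div_comm,
    ← Real.rpow_add_one hK0.ne']
  have : 2 * θ + 1 = 1 + 2 * θ := by ring
  rw [this]
  gcongr

/-- The size of a function. -/
noncomputable def nm (p : ℝ) (f : Fin K → ℝ) : ℝ := (av (fun a => f a ^ p)) ^ (1 / p)

theorem nm_nonneg (p : ℝ) {f : Fin K → ℝ} (hf : ∀ a, 0 ≤ f a) : 0 ≤ nm p f :=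
  Real.rpow_nonneg (av_nonneg (fun a => Real.rpow_nonneg (hf a) _)) _

theorem av_le_nm (hK : 0 < K) {f : Fin K → ℝ} (hf : ∀ a, 0 ≤ f a) {p : ℝ} (hp : 1 ≤ p) :
    av f ≤ nm p f := by
  have h := av_rpow_le hK hf hp
  have h0 := av_nonneg hf
  calc av f = (av f ^ p) ^ (1 / p) := by
        rw [← Real.rpow_mul h0]
        have : p * (1 / p) = 1 := by field_simp
        rw [this, Real.rpow_one]
    _ ≤ _ := Real.rpow_le_rpow (Real.rpow_nonneg h0 _) h (by positivity)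

theorem log_bound : (1 : ℝ) / 8 ≤ Real.log (8 / 7) := by
  rw [Real.le_log_iff_exp_le (by norm_num)]
  have h := Real.add_one_le_exp (-(1 / 8 : ℝ))
  have h2 : Real.exp (1 / 8) * Real.exp (-(1 / 8)) = 1 := by
    rw [← Real.exp_add]; simp
  have h3 : 0 < Real.exp (1 / 8) := Real.exp_pos _
  nlinarith

/-- A function far from constant has a larger size. -/
theorem nm_ge (hK : 0 < K) {f : Fin K → ℝ} (hf : ∀ a, 0 ≤ f a) {θ : ℝ} (hθ : 0 < θ) (hθ1 : θ ≤ 1)
    (h : av (fun a => Real.sqrt (f a)) ≤ 7 / 8 * Real.sqrt (av f)) :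
    av f * (1 + θ / 8) ≤ nm (1 + θ) f := by
  have hA0 := av_nonneg hf
  have hp : (0 : ℝ) < 1 + θ := by linarith
  rcases hA0.eq_or_lt with h0 | hA
  · rw [← h0, zero_mul]
    exact nm_nonneg _ hf
  set A := av f with hAdef
  have hs0 : 0 ≤ av (fun a => Real.sqrt (f a)) := av_nonneg (fun a => Real.sqrt_nonneg _)
  have hint := av_interp hK hf hθ
  rw [← hAdef] at hint
  set P := av (fun a => f a ^ (1 + θ)) with hP
  have hP0 : 0 ≤ P := av_nonneg (fun a => Real.rpow_nonneg (hf a) _)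
  have h1 : A ^ (1 + 2 * θ) ≤ (7 / 8 * Real.sqrt A) ^ (2 * θ) * P := by
    refine le_trans hint ?_
    gcongr
  have h2 : (7 / 8 * Real.sqrt A) ^ (2 * θ) = (7 / 8 : ℝ) ^ (2 * θ) * A ^ θ := by
    rw [Real.mul_rpow (by norm_num) (Real.sqrt_nonneg _), Real.sqrt_eq_rpow, ← Real.rpow_mul hA.le]
    congr 2
    ring
  rw [h2] at h1
  have h3 : A ^ (1 + 2 * θ) = A ^ (1 + θ) * A ^ θ := by
    rw [← Real.rpow_add hA]; congr 1; ring
  have h78 : (0 : ℝ) < (7 / 8 : ℝ) ^ (2 * θ) := by positivity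
  have hAθ : 0 < A ^ θ := by positivity
  have h4 : A ^ (1 + θ) * (8 / 7 : ℝ) ^ (2 * θ) ≤ P := by
    have h5 : A ^ (1 + θ) ≤ (7 / 8 : ℝ) ^ (2 * θ) * P := by
      have : A ^ (1 + θ) * A ^ θ ≤ ((7 / 8 : ℝ) ^ (2 * θ) * P) * A ^ θ := by
        rw [← h3]
        calc A ^ (1 + 2 * θ) ≤ (7 / 8 : ℝ) ^ (2 * θ) * A ^ θ * P := h1
          _ = _ := by ring
      exact le_of_mul_le_mul_right this hAθ
    have h6 : (8 / 7 : ℝ) ^ (2 * θ) * (7 / 8 : ℝ) ^ (2 * θ) = 1 := by
      rw [← Real.mul_rpow (by norm_num) (by norm_num)]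
      norm_num
    calc A ^ (1 + θ) * (8 / 7 : ℝ) ^ (2 * θ)
        ≤ ((7 / 8 : ℝ) ^ (2 * θ) * P) * (8 / 7 : ℝ) ^ (2 * θ) := by gcongr
      _ = ((8 / 7 : ℝ) ^ (2 * θ) * (7 / 8 : ℝ) ^ (2 * θ)) * P := by ring
      _ = P := by rw [h6, one_mul]
  -- take the root
  have h7 : A * (8 / 7 : ℝ) ^ (2 * θ / (1 + θ)) ≤ nm (1 + θ) f := by
    have : (A ^ (1 + θ) * (8 / 7 : ℝ) ^ (2 * θ)) ^ (1 / (1 + θ)) ≤ P ^ (1 / (1 + θ)) :=
      Real.rpow_le_rpow (by positivity) h4 (by positivity)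
    calc A * (8 / 7 : ℝ) ^ (2 * θ / (1 + θ))
        = (A ^ (1 + θ) * (8 / 7 : ℝ) ^ (2 * θ)) ^ (1 / (1 + θ)) := by
          rw [Real.mul_rpow (by positivity) (by positivity), ← Real.rpow_mul hA.le,
            ← Real.rpow_mul (by norm_num)]
          have t1 : (1 + θ) * (1 / (1 + θ)) = 1 := by field_simp
          have t2 : 2 * θ * (1 / (1 + θ)) = 2 * θ / (1 + θ) := by ring
          rw [t1, t2, Real.rpow_one]
      _ ≤ P ^ (1 / (1 + θ)) := this
      _ = nm (1 + θ) f := rfl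
  refine le_trans ?_ h7
  gcongr
  rw [Real.rpow_def_of_pos (by norm_num)]
  have h8 := Real.add_one_le_exp (Real.log (8 / 7) * (2 * θ / (1 + θ)))
  have h9 : θ / 8 ≤ Real.log (8 / 7) * (2 * θ / (1 + θ)) := by
    have t1 : θ ≤ 2 * θ / (1 + θ) := by
      rw [le_div_iff₀ hp]; nlinarith
    have t2 := log_bound
    nlinarith
  linarith

theorem final_reals {k sA sB x y z : ℝ} (hK0 : 0 < k) (hsA0 : 0 < sA) (hsB0 : 0 < sB)
    (h1 : 7 / 8 * sA < x) (h2 : 7 / 8 * sB < y) (hz : z < k * sA * sB / 2)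
    (_hp : 0 ≤ 2 * k * sA ^ 2 - 2 * k * sA * x) (hq : 0 ≤ 2 * k * sB ^ 2 - 2 * k * sB * y)
    (c1 : (z - k * sB * x - k * sA * y + k * sA * sB) ^ 2 ≤
      (2 * k * sA ^ 2 - 2 * k * sA * x) * (2 * k * sB ^ 2 - 2 * k * sB * y)) : False := by
  have hkA : 0 < k * sA := mul_pos hK0 hsA0
  have hkB : 0 < k * sB := mul_pos hK0 hsB0
  have t1 : k * sB * (7 / 8 * sA) < k * sB * x := mul_lt_mul_of_pos_left h1 hkB
  have t2 : k * sA * (7 / 8 * sB) < k * sA * y := mul_lt_mul_of_pos_left h2 hkA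
  have t3 : k * sA * (7 / 8 * sA) < k * sA * x := mul_lt_mul_of_pos_left h1 hkA
  have t4 : k * sB * (7 / 8 * sB) < k * sB * y := mul_lt_mul_of_pos_left h2 hkB
  have v1 : 2 * k * sA ^ 2 - 2 * k * sA * x ≤ k * sA ^ 2 / 4 := by linarith
  have v2 : 2 * k * sB ^ 2 - 2 * k * sB * y ≤ k * sB ^ 2 / 4 := by linarith
  have v5 : (2 * k * sA ^ 2 - 2 * k * sA * x) * (2 * k * sB ^ 2 - 2 * k * sB * y) ≤
      (k * sA ^ 2 / 4) * (k * sB ^ 2 / 4) := mul_le_mul v1 v2 hq (by positivity)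
  have v6 : (k * sA ^ 2 / 4) * (k * sB ^ 2 / 4) = (k * sA * sB / 4) ^ 2 := by ring
  have v3 : k * sA * sB / 4 < - (z - k * sB * x - k * sA * y + k * sA * sB) := by linarith
  have v4 : (k * sA * sB / 4) ^ 2 < (- (z - k * sB * x - k * sA * y + k * sA * sB)) ^ 2 := by
    apply pow_lt_pow_left₀ v3 (by positivity) (by norm_num)
  rw [neg_sq] at v4
  linarith

theorem exists_small_sqrt (hK : 0 < K) {f g : Fin K → ℝ} (hf : ∀ a, 0 ≤ f a) (hg : ∀ a, 0 ≤ g a)
    (hA : 0 < av f) (hB : 0 < av g) (h : av (fun a => f a * g a) < av f * av g / 4) :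
    av (fun a => Real.sqrt (f a)) ≤ 7 / 8 * Real.sqrt (av f) ∨
      av (fun a => Real.sqrt (g a)) ≤ 7 / 8 * Real.sqrt (av g) := by
  have hK0 : (0 : ℝ) < K := by exact_mod_cast hK
  by_contra hcon
  push Not at hcon
  obtain ⟨h1, h2⟩ := hcon
  set A := av f with hAd
  set B := av g with hBd
  set sA := Real.sqrt A with hsA
  set sB := Real.sqrt B with hsB
  have hsA0 : 0 < sA := Real.sqrt_pos.mpr hA
  have hsB0 : 0 < sB := Real.sqrt_pos.mpr hB
  have hsA2 : sA ^ 2 = A := Real.sq_sqrt hA.le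
  have hsB2 : sB ^ 2 = B := Real.sq_sqrt hB.le
  have hKK : ∀ F : Fin K → ℝ, ∑ a, F a = K * av F := by
    intro F; unfold av; field_simp
  -- sums
  have u1 : ∑ a, (Real.sqrt (f a) - sA) ^ 2 = 2 * K * A - 2 * K * sA * av (fun a => Real.sqrt (f a)) := by
    have : ∀ a, (Real.sqrt (f a) - sA) ^ 2 = f a - 2 * sA * Real.sqrt (f a) + A := by
      intro a
      have := Real.sq_sqrt (hf a)
      nlinarith
    rw [Finset.sum_congr rfl (fun a _ => this a), Finset.sum_add_distrib, Finset.sum_sub_distrib,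
      ← Finset.mul_sum, hKK, hKK]
    simp only [Finset.sum_const, Finset.card_univ, Fintype.card_fin, nsmul_eq_mul]
    rw [← hAd]
    ring
  have u2 : ∑ a, (Real.sqrt (g a) - sB) ^ 2 = 2 * K * B - 2 * K * sB * av (fun a => Real.sqrt (g a)) := by
    have : ∀ a, (Real.sqrt (g a) - sB) ^ 2 = g a - 2 * sB * Real.sqrt (g a) + B := by
      intro a
      have := Real.sq_sqrt (hg a)
      nlinarith
    rw [Finset.sum_congr rfl (fun a _ => this a), Finset.sum_add_distrib, Finset.sum_sub_distrib,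
      ← Finset.mul_sum, hKK, hKK]
    simp only [Finset.sum_const, Finset.card_univ, Fintype.card_fin, nsmul_eq_mul]
    rw [← hBd]
    ring
  have u3 : ∑ a, (Real.sqrt (f a) - sA) * (Real.sqrt (g a) - sB) =
      ∑ a, Real.sqrt (f a * g a) - K * sB * av (fun a => Real.sqrt (f a)) -
        K * sA * av (fun a => Real.sqrt (g a)) + K * sA * sB := by
    have : ∀ a, (Real.sqrt (f a) - sA) * (Real.sqrt (g a) - sB) =
        Real.sqrt (f a * g a) - sB * Real.sqrt (f a) - sA * Real.sqrt (g a) + sA * sB := by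
      intro a
      rw [Real.sqrt_mul (hf a)]
      ring
    rw [Finset.sum_congr rfl (fun a _ => this a), Finset.sum_add_distrib, Finset.sum_sub_distrib,
      Finset.sum_sub_distrib, ← Finset.mul_sum, ← Finset.mul_sum, hKK (fun a => Real.sqrt (f a)),
      hKK (fun a => Real.sqrt (g a))]
    simp only [Finset.sum_const, Finset.card_univ, Fintype.card_fin, nsmul_eq_mul]
    ring
  -- Cauchy-Schwarz twice
  have c1 := Finset.sum_mul_sq_le_sq_mul_sq (Finset.univ : Finset (Fin K))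
    (fun a => Real.sqrt (f a) - sA) (fun a => Real.sqrt (g a) - sB)
  have c2 : (∑ a, Real.sqrt (f a * g a)) ^ 2 ≤ K * ∑ a, f a * g a := by
    have := Finset.sum_mul_sq_le_sq_mul_sq (Finset.univ : Finset (Fin K))
      (fun _ => (1 : ℝ)) (fun a => Real.sqrt (f a * g a))
    simp only [one_mul, one_pow, Finset.sum_const, Finset.card_univ, Fintype.card_fin,
      nsmul_eq_mul, mul_one] at this
    refine le_trans this ?_
    gcongr with a _
    rw [Real.sq_sqrt (mul_nonneg (hf a) (hg a))]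
  rw [hKK (fun a => f a * g a)] at c2
  rw [u1, u2, u3] at c1
  have hz1 : ∑ a, Real.sqrt (f a * g a) < K * sA * sB / 2 := by
    have : (∑ a, Real.sqrt (f a * g a)) ^ 2 < (K * sA * sB / 2) ^ 2 := by
      calc (∑ a, Real.sqrt (f a * g a)) ^ 2 ≤ K * (K * av (fun a => f a * g a)) := c2
        _ < K * (K * (A * B / 4)) := by gcongr
        _ = (K * sA * sB / 2) ^ 2 := by rw [← hsA2, ← hsB2]; ring
    exact lt_of_pow_lt_pow_left₀ 2 (by positivity) this
  have v1' : 0 ≤ 2 * K * A - 2 * K * sA * av (fun a => Real.sqrt (f a)) := by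
    rw [← u1]; exact Finset.sum_nonneg (fun a _ => sq_nonneg _)
  have v2' : 0 ≤ 2 * K * B - 2 * K * sB * av (fun a => Real.sqrt (g a)) := by
    rw [← u2]; exact Finset.sum_nonneg (fun a _ => sq_nonneg _)
  rw [← hsA2] at c1 v1'
  rw [← hsB2] at c1 v2'
  exact final_reals hK0 hsA0 hsB0 h1 h2 hz1 v1' v2' c1

/-- The one-coordinate inequality, `θ = 4 / K`. -/
theorem kernel_ne (hK : 4 ≤ K) {f g : Fin K → ℝ} (hf : ∀ a, 0 ≤ f a) (hg : ∀ a, 0 ≤ g a) :
    av f * av g - av (fun a => f a * g a) / K ≤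
      (1 - 1 / (4 * K)) * (nm (1 + 4 / K) f * nm (1 + 4 / K) g) := by
  have hK0 : (0 : ℝ) < K := by exact_mod_cast (by omega : 0 < K)
  have hK4 : (4 : ℝ) ≤ K := by exact_mod_cast hK
  have hθ0 : (0 : ℝ) < 4 / K := by positivity
  have hθ1 : (4 : ℝ) / K ≤ 1 := by rw [div_le_one hK0]; exact hK4
  have hp : (1 : ℝ) ≤ 1 + 4 / K := by linarith
  have hA0 := av_nonneg hf
  have hB0 := av_nonneg hg
  have hAN := av_le_nm (by omega) hf hp
  have hBN := av_le_nm (by omega) hg hp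
  have hfg0 : 0 ≤ av (fun a => f a * g a) := av_nonneg (fun a => mul_nonneg (hf a) (hg a))
  have hρ : (0 : ℝ) ≤ 1 - 1 / (4 * K) := by
    have : 1 / (4 * (K : ℝ)) ≤ 1 := by
      rw [div_le_one (by positivity)]; linarith
    linarith
  have hN0 : 0 ≤ nm (1 + 4 / (K : ℝ)) f := nm_nonneg _ hf
  have hM0 : 0 ≤ nm (1 + 4 / (K : ℝ)) g := nm_nonneg _ hg
  have hNN : av f * av g ≤ nm (1 + 4 / K) f * nm (1 + 4 / K) g := mul_le_mul hAN hBN hB0 hN0
  by_cases hc : av f * av g / 4 ≤ av (fun a => f a * g a)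
  · calc av f * av g - av (fun a => f a * g a) / K
        ≤ av f * av g - (av f * av g / 4) / K := by gcongr
      _ = (1 - 1 / (4 * K)) * (av f * av g) := by field_simp
      _ ≤ _ := by gcongr
  · push Not at hc
    rcases hA0.eq_or_lt with h0 | hA
    · rw [← h0, zero_mul, zero_div] at hc
      exact absurd hc (not_lt.mpr hfg0)
    rcases hB0.eq_or_lt with h0 | hB
    · rw [← h0, mul_zero, zero_div] at hc
      exact absurd hc (not_lt.mpr hfg0)
    have key : av f * av g * (1 + 4 / K / 8) ≤ nm (1 + 4 / K) f * nm (1 + 4 / K) g := by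
      rcases exists_small_sqrt (by omega) hf hg hA hB hc with h | h
      · have := nm_ge (by omega) hf hθ0 hθ1 h
        calc av f * av g * (1 + 4 / K / 8) = (av f * (1 + 4 / K / 8)) * av g := by ring
          _ ≤ _ := by gcongr
      · have := nm_ge (by omega) hg hθ0 hθ1 h
        calc av f * av g * (1 + 4 / K / 8) = av f * (av g * (1 + 4 / K / 8)) := by ring
          _ ≤ _ := by gcongr
    have h1 : (1 : ℝ) ≤ (1 - 1 / (4 * K)) * (1 + 4 / K / 8) := by
      have : (1 - 1 / (4 * (K : ℝ))) * (1 + 4 / K / 8) - 1 = (2 * K - 1) / (8 * K ^ 2) := by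
        field_simp; ring
      have h2 : 0 ≤ (2 * (K : ℝ) - 1) / (8 * K ^ 2) := by
        apply div_nonneg <;> nlinarith
      linarith
    calc av f * av g - av (fun a => f a * g a) / K ≤ av f * av g := by
          have : 0 ≤ av (fun a => f a * g a) / K := div_nonneg hfg0 hK0.le
          linarith
      _ = 1 * (av f * av g) := by ring
      _ ≤ ((1 - 1 / (4 * K)) * (1 + 4 / K / 8)) * (av f * av g) := by gcongr
      _ = (1 - 1 / (4 * K)) * (av f * av g * (1 + 4 / K / 8)) := by ring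
      _ ≤ _ := by gcongr

end

end Pool.Agent.V8H11.SI
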