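import Pool.Agent.V8H11.SI.Pair

/-!
# The main theorems
-/

set_option autoImplicit false

namespace Pool.Agent.V8H11.SI

open Finset

section

variable {m S w : ℕ}

open Classical in
/-- The bound for one pair of sets, on the average over the words. -/
theorem pair_words {C b T N K s : ℕ} (hC : 1 ≤ C) (hb : 1 ≤ b) (hT : 1 ≤ T) (hw : 1 ≤ w)
    (hK : K = 130 * (C * b)) (hs : s = 16 * T * K)
    (D : Scheme m (s * K + N) S w) {i j : Fin m} (hij : i ≠ j) :
    (T : ℝ) * (((univ.filter fun x : Fin m → Fin s → Fin K =>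
        D.Answers (fam N x) i j (C * (T + (fam N x i ∩ fam N x j).card))).card : ℝ) -
        (Fintype.card (Fin m → Fin s → Fin K) : ℝ) / 2) ≤
      w * ∑ x : Fin m → Fin s → Fin K, ((D.joint b (fam N x) i j).card : ℝ) := by
  obtain ⟨k, hk⟩ : ∃ k, k = T / w := ⟨_, rfl⟩
  have hk1 : k * w ≤ T := by rw [hk]; exact Nat.div_mul_le_self T w
  have hk2 : T ≤ (k + 1) * w := by
    have := Nat.lt_div_mul_add (a := T) (b := w) (by omega)
    rw [← hk] at this
    nlinarith
  have hnum := numeric (C := C) (b := b) (T := T) (w := w) (k := k) hC hb hT hk1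
  rw [← hK, ← hs] at hnum
  have hCb : 1 ≤ C * b := Nat.mul_pos hC hb
  have hK4 : 4 ≤ K := by omega
  have hK0 : (0 : ℝ) < K := by exact_mod_cast (by omega : 0 < K)
  have hT0 : (0 : ℝ) < T := by exact_mod_cast hT
  obtain ⟨Q, hQ⟩ : ∃ Q, Q = Fintype.card (Fin m → Fin s → Fin K) := ⟨_, rfl⟩
  rw [← hQ]
  obtain ⟨J, hJ⟩ : ∃ J : (Fin m → Fin s → Fin K) → ℕ,
    J = fun x => (D.joint b (fam N x) i j).card := ⟨_, rfl⟩
  -- the sets
  set A := univ.filter fun x : Fin m → Fin s → Fin K =>
    D.Answers (fam N x) i j (C * (T + (fam N x i ∩ fam N x j).card)) with hA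
  set B := univ.filter fun x : Fin m → Fin s → Fin K => 64 * T < (mat (x i) (x j)).card with hB
  set E := univ.filter fun x : Fin m → Fin s → Fin K => (mat (x i) (x j)).card ≤ 64 * T ∧
    (∃ t ≤ C * (T + 64 * T), D.Answers (fam N x) i j t) ∧ J x ≤ k with hE
  set H := univ.filter fun x : Fin m → Fin s → Fin K => k + 1 ≤ J x with hH
  have hcov : A ⊆ B ∪ E ∪ H := by
    intro x hx
    rw [hA, mem_filter] at hx
    rw [mem_union, mem_union]
    by_cases h1 : 64 * T < (mat (x i) (x j)).card
    · left; left
      exact mem_filter.mpr ⟨mem_univ _, h1⟩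
    · by_cases h2 : k + 1 ≤ J x
      · right
        exact mem_filter.mpr ⟨mem_univ _, h2⟩
      · left; right
        refine mem_filter.mpr ⟨mem_univ _, by omega, ⟨_, ?_, hx.2⟩, by omega⟩
        have h3 : (fam N x i ∩ fam N x j).card ≤ 64 * T := by
          unfold fam
          rw [part_inter hij]
          exact le_trans card_image_le (by omega)
        exact Nat.mul_le_mul_left C (by omega)
  have hABE : A.card ≤ B.card + E.card + H.card :=
    le_trans (card_le_card hcov) (le_trans (card_union_le _ _)
      (Nat.add_le_add_right (card_union_le _ _) _))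
  -- few families have many matches
  have hBc : 4 * B.card ≤ Q := by
    have h1 := sum_matches K s m hij
    rw [← hQ, hs] at h1
    have h2 : ∑ x : Fin m → Fin s → Fin K, (mat (x i) (x j)).card = 16 * T * Q := by
      subst hs
      have h3 : K * ∑ x : Fin m → Fin (16 * T * K) → Fin K, (mat (x i) (x j)).card =
          K * (16 * T * Q) := by
        rw [h1]; ring
      exact Nat.eq_of_mul_eq_mul_left (by omega) h3
    have h3 : B.card * (64 * T) ≤ ∑ x : Fin m → Fin s → Fin K, (mat (x i) (x j)).card := by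
      calc B.card * (64 * T) = ∑ _x ∈ B, 64 * T := by rw [sum_const, smul_eq_mul]
        _ ≤ ∑ x ∈ B, (mat (x i) (x j)).card := by
            apply sum_le_sum
            intro x hx
            exact (mem_filter.mp hx).2.le
        _ ≤ _ := sum_le_sum_of_subset (subset_univ _)
    rw [h2] at h3
    have h4 : (16 * T) * (4 * B.card) ≤ (16 * T) * Q := by
      calc (16 * T) * (4 * B.card) = B.card * (64 * T) := by ring
        _ ≤ 16 * T * Q := h3
    exact Nat.le_of_mul_le_mul_left h4 (by omega)
  -- few families are answered without joint cells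
  have hEc : (E.card : ℝ) ≤ Q / 4 := by
    have h1 := sum_fibre (M := ℕ) (i := i) (j := j) (fun x : Fin m → Fin s → Fin K =>
      if (mat (x i) (x j)).card ≤ 64 * T ∧
        (∃ t ≤ C * (T + 64 * T), D.Answers (fam N x) i j t) ∧ J x ≤ k then 1 else 0)
    have h2 : ∑ x : Fin m → Fin s → Fin K, (if (mat (x i) (x j)).card ≤ 64 * T ∧
        (∃ t ≤ C * (T + 64 * T), D.Answers (fam N x) i j t) ∧ J x ≤ k then 1 else 0) = E.card := by
      rw [hE, card_filter]
    rw [h2, smul_eq_mul] at h1
    have h3 : ∀ z : Fin m → Fin s → Fin K,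
        ((∑ x : Fin s → Fin K, ∑ y : Fin s → Fin K,
          (if (mat ((Function.update (Function.update z i x) j y) i)
              ((Function.update (Function.update z i x) j y) j)).card ≤ 64 * T ∧
            (∃ t ≤ C * (T + 64 * T),
              D.Answers (fam N (Function.update (Function.update z i x) j y)) i j t) ∧
            J (Function.update (Function.update z i x) j y) ≤ k then 1 else 0) : ℕ) : ℝ) ≤
          (1 / 4) * ((K : ℝ) ^ s * (K : ℝ) ^ s) := by
      intro z
      have h4 := fibre_bound hK4 D b z hij (C * (T + 64 * T)) k (64 * T)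
      have h5 : (∑ x : Fin s → Fin K, ∑ y : Fin s → Fin K,
          (if (mat ((Function.update (Function.update z i x) j y) i)
              ((Function.update (Function.update z i x) j y) j)).card ≤ 64 * T ∧
            (∃ t ≤ C * (T + 64 * T),
              D.Answers (fam N (Function.update (Function.update z i x) j y)) i j t) ∧
            J (Function.update (Function.update z i x) j y) ≤ k then 1 else 0)) =
          (univ.filter fun q : (Fin s → Fin K) × (Fin s → Fin K) =>
            (mat q.1 q.2).card ≤ 64 * T ∧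
            (∃ t ≤ C * (T + 64 * T),
              D.Answers (fam N (Function.update (Function.update z i q.1) j q.2)) i j t) ∧
            (D.joint b (fam N (Function.update (Function.update z i q.1) j q.2)) i j).card ≤
              k).card := by
        rw [card_filter, Fintype.sum_prod_type]
        refine sum_congr rfl fun x _ => sum_congr rfl fun y _ => ?_
        rw [Function.update_self, Function.update_of_ne hij, Function.update_self, hJ]
      rw [h5]
      refine le_trans h4 ?_
      have h6 : (0 : ℝ) ≤ (K : ℝ) ^ s * (K : ℝ) ^ s := by positivity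
      exact mul_le_mul_of_nonneg_right hnum h6
    have h7 : ((K ^ s * K ^ s * E.card : ℕ) : ℝ) ≤ Q * ((1 / 4) * ((K : ℝ) ^ s * (K : ℝ) ^ s)) := by
      rw [← h1]
      rw [Nat.cast_sum]
      calc _ ≤ ∑ _z : Fin m → Fin s → Fin K, (1 / 4) * ((K : ℝ) ^ s * (K : ℝ) ^ s) :=
            sum_le_sum fun z _ => h3 z
        _ = _ := by rw [sum_const, card_univ, nsmul_eq_mul, hQ]
    push_cast at h7
    have h8 : (0 : ℝ) < (K : ℝ) ^ s * (K : ℝ) ^ s := by positivity
    have h9 : ((K : ℝ) ^ s * (K : ℝ) ^ s) * (E.card : ℝ) ≤ ((K : ℝ) ^ s * (K : ℝ) ^ s) * (Q / 4) := by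
      calc _ ≤ Q * ((1 / 4) * ((K : ℝ) ^ s * (K : ℝ) ^ s)) := h7
        _ = _ := by ring
    exact le_of_mul_le_mul_left h9 h8
  -- the others read many joint cells
  have hHc : ((k : ℝ) + 1) * H.card ≤ ∑ x : Fin m → Fin s → Fin K, (J x : ℝ) := by
    calc ((k : ℝ) + 1) * H.card = ∑ _x ∈ H, ((k : ℝ) + 1) := by
          rw [sum_const, nsmul_eq_mul]; ring
      _ ≤ ∑ x ∈ H, (J x : ℝ) := by
          apply sum_le_sum
          intro x hx
          have := (mem_filter.mp hx).2
          exact_mod_cast this
      _ ≤ _ := sum_le_sum_of_subset_of_nonneg (subset_univ _) fun x _ _ => Nat.cast_nonneg _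
  have hA1 : (A.card : ℝ) ≤ B.card + E.card + H.card := by exact_mod_cast hABE
  have hB1 : 4 * (B.card : ℝ) ≤ Q := by exact_mod_cast hBc
  have hk3 : (T : ℝ) ≤ ((k : ℝ) + 1) * w := by exact_mod_cast hk2
  have hJs : ∑ x : Fin m → Fin s → Fin K, ((D.joint b (fam N x) i j).card : ℝ) =
      ∑ x : Fin m → Fin s → Fin K, (J x : ℝ) := by rw [hJ]
  rw [hJs]
  calc (T : ℝ) * ((A.card : ℝ) - (Q : ℝ) / 2) ≤ T * H.card := by
        apply mul_le_mul_of_nonneg_left _ hT0.le
        linarith
    _ ≤ (((k : ℝ) + 1) * w) * H.card := by gcongr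
    _ = w * (((k : ℝ) + 1) * H.card) := by ring
    _ ≤ _ := by gcongr

end

end Pool.Agent.V8H11.SI
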