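import Pool.Agent.V8H11.SI.Defs

/-!
# Query algorithms which read cells with contents constant on few rectangles
-/

set_option autoImplicit false

namespace Pool.Agent.V8H11.SI

open Finset

section power

theorem sum_rpow_le {G : ℕ} {p : ℝ} (hp : 1 ≤ p) (t : Fin G → ℝ) (ht : ∀ i, 0 ≤ t i) :
    ∑ i, t i ^ (1 / p) ≤ (G : ℝ) ^ (1 - 1 / p) * (∑ i, t i) ^ (1 / p) := by
  have hp0 : 0 < p := by linarith
  have h := Real.rpow_sum_le_const_mul_sum_rpow_of_nonneg (Finset.univ : Finset (Fin G)) hp
    (f := fun i => t i ^ (1 / p)) (fun i _ => Real.rpow_nonneg (ht i) _)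
  have e : ∀ i, (t i ^ (1 / p)) ^ p = t i := by
    intro i
    rw [← Real.rpow_mul (ht i), one_div_mul_cancel hp0.ne', Real.rpow_one]
  simp only [e, Finset.card_univ, Fintype.card_fin] at h
  have h0 : 0 ≤ ∑ i, t i ^ (1 / p) := Finset.sum_nonneg fun i _ => Real.rpow_nonneg (ht i) _
  have ht0 : 0 ≤ ∑ i, t i := Finset.sum_nonneg fun i _ => ht i
  have hG : (0 : ℝ) ≤ G := Nat.cast_nonneg _
  calc ∑ i, t i ^ (1 / p) = ((∑ i, t i ^ (1 / p)) ^ p) ^ (1 / p) := by
        rw [← Real.rpow_mul h0, mul_one_div_cancel hp0.ne', Real.rpow_one]
    _ ≤ ((G : ℝ) ^ (p - 1) * ∑ i, t i) ^ (1 / p) :=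
        Real.rpow_le_rpow (Real.rpow_nonneg h0 _) h (by positivity)
    _ = (G : ℝ) ^ (1 - 1 / p) * (∑ i, t i) ^ (1 / p) := by
        rw [Real.mul_rpow (Real.rpow_nonneg hG _) ht0, ← Real.rpow_mul hG]
        congr 2
        field_simp

theorem sum_final {G : ℕ} {p M β q : ℝ} (hp : 1 ≤ p) (hM : 0 ≤ M) (hβ : 0 ≤ β) (t : Fin G → ℝ)
    (ht : ∀ i, 0 ≤ t i) (hq : ∑ i, t i ≤ q) :
    ∑ i, M * (β * t i ^ (1 / p)) ≤ M * (G : ℝ) ^ (1 - 1 / p) * (β * q ^ (1 / p)) := by
  have hp0 : 0 < p := by linarith
  have h5 := sum_rpow_le hp t ht
  have h6 : (∑ i, t i) ^ (1 / p) ≤ q ^ (1 / p) :=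
    Real.rpow_le_rpow (Finset.sum_nonneg fun i _ => ht i) hq (by positivity)
  have h7 : (G : ℝ) ^ (1 - 1 / p) * (∑ i, t i) ^ (1 / p) ≤ (G : ℝ) ^ (1 - 1 / p) * q ^ (1 / p) :=
    mul_le_mul_of_nonneg_left h6 (by positivity)
  have h8 : ∑ i, M * (β * t i ^ (1 / p)) = (M * β) * ∑ i, t i ^ (1 / p) := by
    rw [Finset.mul_sum]
    exact Finset.sum_congr rfl fun i _ => by ring
  rw [h8]
  calc (M * β) * ∑ i, t i ^ (1 / p) ≤ (M * β) * ((G : ℝ) ^ (1 - 1 / p) * q ^ (1 / p)) :=
        mul_le_mul_of_nonneg_left (le_trans h5 h7) (mul_nonneg hM hβ)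
    _ = _ := by ring

end power

variable {A B : Type} {S W G : ℕ}

/-- The run after the contents `L` stops after at most `n` further steps, with an output which is
`ok`, and reads at most `k` joint cells which are not known. -/
def good (c : Fin S → A → B → Fin W) (J : Fin S → Bool) (next : List (Fin W) → Option (Fin S))
    (ok : List (Fin W) → A → B → Prop) :
    ℕ → ℕ → List (Fin W) → (Fin S → Option (Fin W)) → A → B → Prop
  | 0, _, L, _, x, y => next L = none ∧ ok L x y
  | n + 1, k, L, kn, x, y =>
    match next L with
    | none => ok L x y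
    | some a =>
      if J a = true then
        match kn a, k with
        | some v, k => good c J next ok n k (L ++ [v]) kn x y
        | none, 0 => False
        | none, k + 1 => good c J next ok n k (L ++ [c a x y])
            (Function.update kn a (some (c a x y))) x y
      else good c J next ok n k (L ++ [c a x y]) kn x y

theorem good_of_run {c : Fin S → A → B → Fin W} {J : Fin S → Bool}
    {next : List (Fin W) → Option (Fin S)} {ok : List (Fin W) → A → B → Prop} {x : A} {y : B}
    (JS : Finset (Fin S)) :
    ∀ (n k : ℕ) (L : List (Fin W)) (kn : Fin S → Option (Fin W)),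
      (∀ a v, kn a = some v → c a x y = v) →
      (JS.filter fun a => kn a = none).card ≤ k →
      (∀ n' a, next (runc next (fun a => c a x y) n' L) = some a → J a = true → a ∈ JS) →
      next (runc next (fun a => c a x y) n L) = none →
      ok (runc next (fun a => c a x y) n L) x y →
      good c J next ok n k L kn x y := by
  intro n
  induction n with
  | zero =>
    intro k L kn _ _ _ h1 h2
    exact ⟨h1, h2⟩
  | succ n ih =>
    intro k L kn hkn hk hJ h1 h2
    unfold good
    unfold runc at h1 h2
    cases hL : next L with
    | none =>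
      simp only [hL] at h1 h2 ⊢
      exact h2
    | some a =>
      simp only [hL] at h1 h2 ⊢
      have hJ' : ∀ n' a', next (runc next (fun a => c a x y) n' (L ++ [c a x y])) = some a' →
          J a' = true → a' ∈ JS := by
        intro n' a' h3 h4
        apply hJ (n' + 1) a' _ h4
        unfold runc
        simp only [hL]
        exact h3
      split_ifs with hja
      · cases hka : kn a with
        | some v =>
          dsimp only
          have hv := hkn a v hka
          rw [← hv]
          exact ih k _ kn hkn hk hJ' h1 h2
        | none =>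
          have haJ : a ∈ JS := hJ 0 a hL hja
          have hmem : a ∈ JS.filter fun a => kn a = none := Finset.mem_filter.mpr ⟨haJ, hka⟩
          cases k with
          | zero =>
            exact absurd (Finset.card_pos.mpr ⟨a, hmem⟩) (by omega)
          | succ k =>
            dsimp only
            apply ih k _ _ _ _ hJ' h1 h2
            · intro a' v h5
              by_cases h6 : a' = a
              · subst h6
                rw [Function.update_self] at h5
                exact Option.some.inj h5
              · rw [Function.update_of_ne h6] at h5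
                exact hkn a' v h5
            · have : (JS.filter fun a' => Function.update kn a (some (c a x y)) a' = none) ⊆
                  (JS.filter fun a => kn a = none).erase a := by
                intro a' ha'
                rw [Finset.mem_filter] at ha'
                by_cases h6 : a' = a
                · subst h6
                  rw [Function.update_self] at ha'
                  exact absurd ha'.2 (by simp)
                · rw [Function.update_of_ne h6] at ha'
                  exact Finset.mem_erase.mpr ⟨h6, Finset.mem_filter.mpr ha'⟩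
              have h7 := Finset.card_le_card this
              rw [Finset.card_erase_of_mem hmem] at h7
              omega
      · exact ih k _ kn hkn hk hJ' h1 h2

open Classical in
/-- The number of the good pairs in a rectangle. -/
theorem count_good {c : Fin S → A → B → Fin W} {J : Fin S → Bool}
    {next : List (Fin W) → Option (Fin S)} {ok : List (Fin W) → A → B → Prop} {p β : ℝ}
    (hp : 1 ≤ p) (hβ : 0 ≤ β) (hW : 1 ≤ W) (hG : 1 ≤ G)
    (hok : ∀ (L : List (Fin W)) (X : Finset A) (Y : Finset B),
      ((((X ×ˢ Y).filter fun z => ok L z.1 z.2).card : ℕ) : ℝ) ≤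
        β * ((X.card : ℝ) * Y.card) ^ (1 / p))
    (sym : Fin S → A → B → Fin G)
    (hsym : ∀ a, J a = false → ∀ x x' y y', sym a x y = sym a x' y' →
      sym a x y' = sym a x y ∧ c a x y = c a x' y') :
    ∀ (n k : ℕ) (L : List (Fin W)) (kn : Fin S → Option (Fin W)) (X : Finset A) (Y : Finset B),
      ((((X ×ˢ Y).filter fun z => good c J next ok n k L kn z.1 z.2).card : ℕ) : ℝ) ≤
        (W : ℝ) ^ k * ((G : ℝ) ^ (1 - 1 / p)) ^ n * (β * ((X.card : ℝ) * Y.card) ^ (1 / p)) := by
  have hp0 : 0 < p := by linarith
  have hW1 : (1 : ℝ) ≤ W := by exact_mod_cast hW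
  have hG1 : (1 : ℝ) ≤ G := by exact_mod_cast hG
  have hg1 : 1 ≤ (G : ℝ) ^ (1 - 1 / p) := by
    apply Real.one_le_rpow hG1
    rw [sub_nonneg, div_le_one hp0]
    exact hp
  intro n
  induction n with
  | zero =>
    intro k L kn X Y
    have h1 : ((X ×ˢ Y).filter fun z => good c J next ok 0 k L kn z.1 z.2).card ≤
        ((X ×ˢ Y).filter fun z => ok L z.1 z.2).card := by
      apply Finset.card_le_card
      intro z hz
      rw [Finset.mem_filter] at hz ⊢
      exact ⟨hz.1, hz.2.2⟩
    have h2 := hok L X Y
    have h3 : (1 : ℝ) ≤ (W : ℝ) ^ k := one_le_pow₀ hW1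
    have h4 : 0 ≤ β * ((X.card : ℝ) * Y.card) ^ (1 / p) := by positivity
    calc ((((X ×ˢ Y).filter fun z => good c J next ok 0 k L kn z.1 z.2).card : ℕ) : ℝ)
        ≤ ((((X ×ˢ Y).filter fun z => ok L z.1 z.2).card : ℕ) : ℝ) := by exact_mod_cast h1
      _ ≤ 1 * 1 * (β * ((X.card : ℝ) * Y.card) ^ (1 / p)) := by linarith
      _ ≤ (W : ℝ) ^ k * ((G : ℝ) ^ (1 - 1 / p)) ^ 0 *
          (β * ((X.card : ℝ) * Y.card) ^ (1 / p)) := by
        rw [pow_zero]
        gcongr
  | succ n ih =>
    intro k L kn X Y
    have hnn : 0 ≤ β * ((X.card : ℝ) * Y.card) ^ (1 / p) := by positivity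
    cases hL : next L with
    | none =>
      have h1 : ((X ×ˢ Y).filter fun z => good c J next ok (n + 1) k L kn z.1 z.2).card ≤
          ((X ×ˢ Y).filter fun z => ok L z.1 z.2).card := by
        apply Finset.card_le_card
        intro z hz
        rw [Finset.mem_filter] at hz ⊢
        refine ⟨hz.1, ?_⟩
        have h2 := hz.2
        unfold good at h2
        simp only [hL] at h2
        exact h2
      have h2 := hok L X Y
      have h3 : (1 : ℝ) ≤ (W : ℝ) ^ k := one_le_pow₀ hW1
      have h5 : (1 : ℝ) ≤ ((G : ℝ) ^ (1 - 1 / p)) ^ (n + 1) := one_le_pow₀ hg1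
      calc ((((X ×ˢ Y).filter fun z => good c J next ok (n + 1) k L kn z.1 z.2).card : ℕ) : ℝ)
          ≤ ((((X ×ˢ Y).filter fun z => ok L z.1 z.2).card : ℕ) : ℝ) := by exact_mod_cast h1
        _ ≤ 1 * 1 * (β * ((X.card : ℝ) * Y.card) ^ (1 / p)) := by linarith
        _ ≤ (W : ℝ) ^ k * ((G : ℝ) ^ (1 - 1 / p)) ^ (n + 1) *
            (β * ((X.card : ℝ) * Y.card) ^ (1 / p)) := by gcongr
    | some a =>
      by_cases hja : J a = true
      · cases hka : kn a with
        | some v =>
          have h1 : ((X ×ˢ Y).filter fun z => good c J next ok (n + 1) k L kn z.1 z.2) ⊆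
              ((X ×ˢ Y).filter fun z => good c J next ok n k (L ++ [v]) kn z.1 z.2) := by
            intro z hz
            rw [Finset.mem_filter] at hz ⊢
            refine ⟨hz.1, ?_⟩
            have h2 := hz.2
            unfold good at h2
            simp only [hL, hja, if_true, hka] at h2
            exact h2
          calc ((((X ×ˢ Y).filter fun z => good c J next ok (n + 1) k L kn z.1 z.2).card : ℕ) : ℝ)
              ≤ ((((X ×ˢ Y).filter fun z =>
                  good c J next ok n k (L ++ [v]) kn z.1 z.2).card : ℕ) : ℝ) := by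
                exact_mod_cast Finset.card_le_card h1
            _ ≤ (W : ℝ) ^ k * ((G : ℝ) ^ (1 - 1 / p)) ^ n *
                (β * ((X.card : ℝ) * Y.card) ^ (1 / p)) := ih k _ kn X Y
            _ ≤ _ := by
                gcongr
                omega
        | none =>
          cases k with
          | zero =>
            have h1 : ((X ×ˢ Y).filter fun z => good c J next ok (n + 1) 0 L kn z.1 z.2) = ∅ := by
              apply Finset.filter_false_of_mem
              intro z _ h2
              unfold good at h2
              simp only [hL, hja, if_true, hka] at h2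
            rw [h1, Finset.card_empty, Nat.cast_zero]
            positivity
          | succ k =>
            have h1 : ((X ×ˢ Y).filter fun z => good c J next ok (n + 1) (k + 1) L kn z.1 z.2) ⊆
                Finset.univ.biUnion fun v : Fin W => (X ×ˢ Y).filter fun z =>
                  good c J next ok n k (L ++ [v]) (Function.update kn a (some v)) z.1 z.2 := by
              intro z hz
              rw [Finset.mem_filter] at hz
              rw [Finset.mem_biUnion]
              refine ⟨c a z.1 z.2, Finset.mem_univ _, Finset.mem_filter.mpr ⟨hz.1, ?_⟩⟩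
              have h2 := hz.2
              unfold good at h2
              simp only [hL, hja, if_true, hka] at h2
              exact h2
            have h2 : (((X ×ˢ Y).filter fun z =>
                good c J next ok (n + 1) (k + 1) L kn z.1 z.2).card) ≤
                ∑ v : Fin W, ((X ×ˢ Y).filter fun z =>
                  good c J next ok n k (L ++ [v]) (Function.update kn a (some v)) z.1 z.2).card :=
              le_trans (Finset.card_le_card h1) Finset.card_biUnion_le
            calc ((((X ×ˢ Y).filter fun z =>
                  good c J next ok (n + 1) (k + 1) L kn z.1 z.2).card : ℕ) : ℝ)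
                ≤ ∑ v : Fin W, ((((X ×ˢ Y).filter fun z =>
                  good c J next ok n k (L ++ [v]) (Function.update kn a (some v)) z.1 z.2).card : ℕ)
                    : ℝ) := by exact_mod_cast h2
              _ ≤ ∑ _v : Fin W, (W : ℝ) ^ k * ((G : ℝ) ^ (1 - 1 / p)) ^ n *
                  (β * ((X.card : ℝ) * Y.card) ^ (1 / p)) :=
                Finset.sum_le_sum fun v _ => ih k _ _ X Y
              _ = (W : ℝ) ^ (k + 1) * ((G : ℝ) ^ (1 - 1 / p)) ^ n *
                  (β * ((X.card : ℝ) * Y.card) ^ (1 / p)) := by
                rw [Finset.sum_const, Finset.card_univ, Fintype.card_fin, nsmul_eq_mul, pow_succ]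
                ring
              _ ≤ _ := by
                gcongr
                omega
      · have hja' : J a = false := by simpa using hja
        have hs := hsym a hja'
        -- the rectangles
        set Xs : Fin G → Finset A := fun σ => X.filter fun x => ∃ y ∈ Y, sym a x y = σ with hXs
        set Ys : Fin G → Finset B := fun σ => Y.filter fun y => ∃ x ∈ X, sym a x y = σ with hYs
        have hrect : ∀ σ x y, x ∈ Xs σ → y ∈ Ys σ → sym a x y = σ := by
          intro σ x y hx hy
          obtain ⟨_, y', _, h1⟩ := Finset.mem_filter.mp hx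
          obtain ⟨_, x', _, h2⟩ := Finset.mem_filter.mp hy
          have := (hs x x' y' y (h1.trans h2.symm)).1
          rw [this, h1]
        have hW0 : 0 < W := by omega
        set vs : Fin G → Fin W := fun σ =>
          if h : ∃ z : A × B, sym a z.1 z.2 = σ then c a h.choose.1 h.choose.2 else ⟨0, hW0⟩
          with hvs
        have hvs' : ∀ x y, vs (sym a x y) = c a x y := by
          intro x y
          have h : ∃ z : A × B, sym a z.1 z.2 = sym a x y := ⟨(x, y), rfl⟩
          rw [hvs]
          dsimp only
          rw [dif_pos h]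
          exact (hs _ _ _ _ h.choose_spec).2
        have h1 : ((X ×ˢ Y).filter fun z => good c J next ok (n + 1) k L kn z.1 z.2) ⊆
            Finset.univ.biUnion fun σ : Fin G => (Xs σ ×ˢ Ys σ).filter fun z =>
              good c J next ok n k (L ++ [vs σ]) kn z.1 z.2 := by
          intro z hz
          rw [Finset.mem_filter, Finset.mem_product] at hz
          rw [Finset.mem_biUnion]
          refine ⟨sym a z.1 z.2, Finset.mem_univ _, Finset.mem_filter.mpr ⟨?_, ?_⟩⟩
          · rw [Finset.mem_product]
            exact ⟨Finset.mem_filter.mpr ⟨hz.1.1, z.2, hz.1.2, rfl⟩,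
              Finset.mem_filter.mpr ⟨hz.1.2, z.1, hz.1.1, rfl⟩⟩
          · have h2 := hz.2
            unfold good at h2
            simp only [hL, hja', if_false, Bool.false_eq_true] at h2
            rw [hvs']
            exact h2
        have h2 : (((X ×ˢ Y).filter fun z => good c J next ok (n + 1) k L kn z.1 z.2).card) ≤
            ∑ σ : Fin G, ((Xs σ ×ˢ Ys σ).filter fun z =>
              good c J next ok n k (L ++ [vs σ]) kn z.1 z.2).card :=
          le_trans (Finset.card_le_card h1) Finset.card_biUnion_le
        have h3 : ∑ σ : Fin G, ((Xs σ).card : ℝ) * (Ys σ).card ≤ (X.card : ℝ) * Y.card := by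
          have h4 : ∑ σ : Fin G, (Xs σ ×ˢ Ys σ).card ≤ (X ×ˢ Y).card := by
            rw [← Finset.card_biUnion]
            · apply Finset.card_le_card
              intro z hz
              rw [Finset.mem_biUnion] at hz
              obtain ⟨σ, _, hz⟩ := hz
              rw [Finset.mem_product] at hz ⊢
              exact ⟨(Finset.mem_filter.mp hz.1).1, (Finset.mem_filter.mp hz.2).1⟩
            · intro σ _ τ _ hst
              rw [Function.onFun, Finset.disjoint_left]
              intro z hz hz'
              rw [Finset.mem_product] at hz hz'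
              exact hst ((hrect σ _ _ hz.1 hz.2).symm.trans (hrect τ _ _ hz'.1 hz'.2))
          simp only [Finset.card_product] at h4
          exact_mod_cast h4
        have h5 := sum_final (M := (W : ℝ) ^ k * ((G : ℝ) ^ (1 - 1 / p)) ^ n) hp (by positivity) hβ
          (fun σ : Fin G => ((Xs σ).card : ℝ) * (Ys σ).card) (fun σ => by positivity) h3
        have h6 : (W : ℝ) ^ k * ((G : ℝ) ^ (1 - 1 / p)) ^ (n + 1) *
            (β * ((X.card : ℝ) * Y.card) ^ (1 / p)) =
            (W : ℝ) ^ k * ((G : ℝ) ^ (1 - 1 / p)) ^ n * (G : ℝ) ^ (1 - 1 / p) *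
              (β * ((X.card : ℝ) * Y.card) ^ (1 / p)) := by
          rw [pow_succ]; ring
        rw [h6]
        refine le_trans ?_ h5
        refine le_trans (b := ∑ σ : Fin G, ((((Xs σ ×ˢ Ys σ).filter fun z =>
              good c J next ok n k (L ++ [vs σ]) kn z.1 z.2).card : ℕ) : ℝ)) ?_ ?_
        · exact_mod_cast h2
        · exact Finset.sum_le_sum fun σ _ => ih k _ kn _ _

end Pool.Agent.V8H11.SI
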