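import Pool.Agent.V8H11.SI.Fam
import Pool.Agent.V8H11.SI.Sim

/-!
# One pair of sets
-/

set_option autoImplicit false

namespace Pool.Agent.V8H11.SI

open Finset

theorem exp_bound : (32 : ℝ) ≤ Real.exp (7 / 2) := by
  have h1 := Real.exp_one_gt_d9
  have h2 : Real.exp (7 / 2) ^ 2 = Real.exp 1 ^ 7 := by
    rw [← Real.exp_nat_mul, ← Real.exp_nat_mul]
    norm_num
  have h3 : (2.7 : ℝ) ^ 7 ≤ Real.exp 1 ^ 7 := by
    apply pow_le_pow_left₀ (by norm_num)
    linarith
  have h4 : (32 : ℝ) ^ 2 ≤ Real.exp (7 / 2) ^ 2 := by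
    rw [h2]
    refine le_trans ?_ h3
    norm_num
  exact (pow_le_pow_iff_left₀ (by norm_num) (Real.exp_pos _).le (by norm_num)).mp h4

/-- The numerical estimate. -/
theorem numeric {C b T w k : ℕ} (hC : 1 ≤ C) (hb : 1 ≤ b) (hT : 1 ≤ T) (hk : k * w ≤ T) :
    ((2 ^ w : ℕ) : ℝ) ^ k *
      ((((2 ^ b : ℕ) : ℝ) ^ (1 - 1 / (1 + 4 / ((130 * (C * b) : ℕ) : ℝ)))) ^ (C * (T + 64 * T))) *
      (1 - 1 / (4 * ((130 * (C * b) : ℕ) : ℝ))) ^ (16 * T * (130 * (C * b)) - 64 * T) ≤ 1 / 4 := by
  obtain ⟨K, hK⟩ : ∃ K, K = 130 * (C * b) := ⟨_, rfl⟩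
  rw [← hK]
  have hCb : 1 ≤ C * b := Nat.mul_pos hC hb
  have hK130 : 130 ≤ K := by omega
  have hK0 : (130 : ℝ) ≤ K := by exact_mod_cast hK130
  have hKpos : (0 : ℝ) < K := by linarith
  have hT1 : (1 : ℝ) ≤ T := by exact_mod_cast hT
  -- the first factor
  have h1 : ((2 ^ w : ℕ) : ℝ) ^ k ≤ (2 : ℝ) ^ T := by
    push_cast
    rw [← pow_mul]
    apply pow_le_pow_right₀ (by norm_num)
    rw [mul_comm]
    exact hk
  -- the second factor
  have h2 : ((((2 ^ b : ℕ) : ℝ) ^ (1 - 1 / (1 + 4 / (K : ℝ)))) ^ (C * (T + 64 * T))) ≤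
      (4 : ℝ) ^ T := by
    push_cast
    have e1 : ((2 : ℝ) ^ b) ^ (1 - 1 / (1 + 4 / (K : ℝ))) ≤ (2 : ℝ) ^ ((b : ℝ) * (4 / K)) := by
      rw [← Real.rpow_natCast (2 : ℝ) b, ← Real.rpow_mul (by norm_num)]
      apply Real.rpow_le_rpow_of_exponent_le (by norm_num)
      apply mul_le_mul_of_nonneg_left _ (Nat.cast_nonneg b)
      have hp : (0 : ℝ) < 1 + 4 / K := by positivity
      rw [sub_le_iff_le_add, ← sub_le_iff_le_add', le_div_iff₀ hp]
      have : (0 : ℝ) ≤ (4 / K) ^ 2 := by positivity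
      nlinarith
    calc (((2 : ℝ) ^ b) ^ (1 - 1 / (1 + 4 / (K : ℝ)))) ^ (C * (T + 64 * T))
        ≤ ((2 : ℝ) ^ ((b : ℝ) * (4 / K))) ^ (C * (T + 64 * T)) := by gcongr
      _ = (2 : ℝ) ^ (((b : ℝ) * (4 / K)) * ((C * (T + 64 * T) : ℕ) : ℝ)) := by
          rw [← Real.rpow_natCast ((2 : ℝ) ^ ((b : ℝ) * (4 / K))), ← Real.rpow_mul (by norm_num)]
      _ = (2 : ℝ) ^ ((2 * T : ℕ) : ℝ) := by
          congr 1
          rw [hK]
          have hC0 : (C : ℝ) ≠ 0 := by
            have : (1 : ℝ) ≤ C := by exact_mod_cast hC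
            linarith
          have hb0 : (b : ℝ) ≠ 0 := by
            have : (1 : ℝ) ≤ b := by exact_mod_cast hb
            linarith
          push_cast
          field_simp
          ring
      _ = (4 : ℝ) ^ T := by
          rw [Real.rpow_natCast, pow_mul]
          norm_num
  -- the third factor
  have h3 : (1 - 1 / (4 * (K : ℝ))) ^ (16 * T * K - 64 * T) ≤ Real.exp (-(7 / 2)) ^ T := by
    have e1 : 1 - 1 / (4 * (K : ℝ)) ≤ Real.exp (-(1 / (4 * (K : ℝ)))) := by
      have := Real.add_one_le_exp (-(1 / (4 * (K : ℝ))))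
      linarith
    have e0 : 0 ≤ 1 - 1 / (4 * (K : ℝ)) := by
      have : 1 / (4 * (K : ℝ)) ≤ 1 := by
        rw [div_le_one (by positivity)]; linarith
      linarith
    have hsub : 64 * T ≤ 16 * T * K := by nlinarith
    calc (1 - 1 / (4 * (K : ℝ))) ^ (16 * T * K - 64 * T)
        ≤ Real.exp (-(1 / (4 * (K : ℝ)))) ^ (16 * T * K - 64 * T) := by gcongr
      _ = Real.exp (((16 * T * K - 64 * T : ℕ) : ℝ) * (-(1 / (4 * (K : ℝ))))) := by
          rw [← Real.exp_nat_mul]
      _ ≤ Real.exp ((T : ℝ) * (-(7 / 2))) := by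
          apply Real.exp_le_exp.mpr
          rw [Nat.cast_sub hsub]
          push_cast
          have : (16 * (T : ℝ) * K - 64 * T) * (-(1 / (4 * (K : ℝ)))) = T * (-4 + 16 / K) := by
            field_simp
            ring
          rw [this]
          apply mul_le_mul_of_nonneg_left _ (by positivity)
          have h16 : 16 / (K : ℝ) ≤ 1 / 2 := by
            rw [div_le_iff₀ hKpos]; linarith
          linarith
      _ = Real.exp (-(7 / 2)) ^ T := by rw [← Real.exp_nat_mul]
  have h0 : 0 ≤ (1 - 1 / (4 * (K : ℝ))) ^ (16 * T * K - 64 * T) := by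
    apply pow_nonneg
    have : 1 / (4 * (K : ℝ)) ≤ 1 := by
      rw [div_le_one (by positivity)]; linarith
    linarith
  calc _ ≤ (2 : ℝ) ^ T * (4 : ℝ) ^ T * Real.exp (-(7 / 2)) ^ T := by gcongr
    _ = (8 * Real.exp (-(7 / 2))) ^ T := by
        rw [← mul_pow, ← mul_pow]
        norm_num
    _ ≤ (1 / 4) ^ T := by
        apply pow_le_pow_left₀ (by positivity)
        rw [Real.exp_neg]
        have := exp_bound
        have h5 : (Real.exp (7 / 2))⁻¹ ≤ (32 : ℝ)⁻¹ := inv_anti₀ (by norm_num) this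
        calc 8 * (Real.exp (7 / 2))⁻¹ ≤ 8 * (32 : ℝ)⁻¹ := by gcongr
          _ = 1 / 4 := by norm_num
    _ ≤ 1 / 4 := by
        calc ((1 : ℝ) / 4) ^ T ≤ (1 / 4) ^ 1 :=
              pow_le_pow_of_le_one (by norm_num) (by norm_num) hT
          _ = 1 / 4 := by norm_num

theorem runc_stop {S W : ℕ} {next : List (Fin W) → Option (Fin S)} {mem : Fin S → Fin W} :
    ∀ (n : ℕ) (L : List (Fin W)), next (runc next mem n L) = none →
      ∀ n', n ≤ n' → runc next mem n' L = runc next mem n L := by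
  intro n
  induction n with
  | zero =>
    intro L h n' _
    cases n' with
    | zero => rfl
    | succ n' =>
      unfold runc at h ⊢
      simp only [h]
  | succ n ih =>
    intro L h n' hn'
    obtain ⟨n', rfl⟩ : ∃ n'', n' = n'' + 1 := ⟨n' - 1, by omega⟩
    unfold runc at h ⊢
    cases hL : next L with
    | none => simp only
    | some a =>
      simp only [hL] at h ⊢
      exact ih _ h n' (by omega)

section

variable {m s K N S w : ℕ}

open Classical in
/-- In one fibre, few pairs of words have few matches, are answered in time, and need at most `k`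
joint cells. -/
theorem fibre_bound (hK : 4 ≤ K) (D : Scheme m (s * K + N) S w) (b : ℕ)
    (z : Fin m → Fin s → Fin K) {i j : Fin m} (hij : i ≠ j) (n k h : ℕ) :
    (((univ.filter fun q : (Fin s → Fin K) × (Fin s → Fin K) =>
      (mat q.1 q.2).card ≤ h ∧
      (∃ t ≤ n, D.Answers (fam N (Function.update (Function.update z i q.1) j q.2)) i j t) ∧
      (D.joint b (fam N (Function.update (Function.update z i q.1) j q.2)) i j).card ≤ k).card : ℕ)
        : ℝ) ≤
      ((2 ^ w : ℕ) : ℝ) ^ k * ((((2 ^ b : ℕ) : ℝ) ^ (1 - 1 / (1 + 4 / (K : ℝ)))) ^ n) *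
        (1 - 1 / (4 * (K : ℝ))) ^ (s - h) * ((K : ℝ) ^ s * (K : ℝ) ^ s) := by
  have hK0 : (0 : ℝ) < K := by exact_mod_cast (by omega : 0 < K)
  have hK4 : (4 : ℝ) ≤ K := by exact_mod_cast hK
  have hp : (1 : ℝ) ≤ 1 + 4 / K := by
    have : (0 : ℝ) < 4 / K := by positivity
    linarith
  have hρ0 : (0 : ℝ) ≤ 1 - 1 / (4 * (K : ℝ)) := by
    have : 1 / (4 * (K : ℝ)) ≤ 1 := by
      rw [div_le_one (by positivity)]; linarith
    linarith
  have hρ1 : 1 - 1 / (4 * (K : ℝ)) ≤ 1 := by
    have : 0 ≤ 1 / (4 * (K : ℝ)) := by positivity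
    linarith
  obtain ⟨F, hF⟩ : ∃ F : (Fin s → Fin K) → (Fin s → Fin K) → Fin m → Finset (Fin (s * K + N)),
    F = fun x y => fam N (Function.update (Function.update z i x) j y) := ⟨_, rfl⟩
  obtain ⟨J, hJ⟩ : ∃ J : Fin S → Bool, J = fun a => decide (¬ D.Simple b (fam N z) i j a) := ⟨_, rfl⟩
  have hFe : ∀ x y, F x y =
      Function.update (Function.update (fam N z) i (part N m i x)) j (part N m j y) := by
    intro x y
    rw [hF]
    exact fam_update z x y
  have hci : ∀ x : Fin s → Fin K, (part N m i x).card = (fam N z i).card := by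
    intro x
    unfold fam
    rw [card_part, card_part]
  have hcj : ∀ x : Fin s → Fin K, (part N m j x).card = (fam N z j).card := by
    intro x
    unfold fam
    rw [card_part, card_part]
  -- simplicity does not depend on the two words
  have hS : ∀ x y a, D.Simple b (F x y) i j a → D.Simple b (fam N z) i j a := by
    rintro x y a ⟨sym, hsym⟩
    refine ⟨sym, ?_⟩
    intro X X' Y Y' h1 h2 h3 h4 h5
    have e1 : (F x y i).card = (fam N z i).card := by
      rw [hFe, Function.update_of_ne hij, Function.update_self, hci]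
    have e2 : (F x y j).card = (fam N z j).card := by
      rw [hFe, Function.update_self, hcj]
    have e3 : ∀ X Y, Function.update (Function.update (F x y) i X) j Y =
        Function.update (Function.update (fam N z) i X) j Y := by
      intro X Y
      funext l
      by_cases hl : l = j
      · subst hl; simp
      · by_cases hl' : l = i
        · subst hl'; simp [Function.update_of_ne hl]
        · rw [Function.update_of_ne hl, Function.update_of_ne hl', Function.update_of_ne hl,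
            Function.update_of_ne hl', hFe, Function.update_of_ne hl, Function.update_of_ne hl']
    have h6 := hsym X X' Y Y' (by rw [e1, h1]) (by rw [e1, h2]) (by rw [e2, h3]) (by rw [e2, h4]) h5
    rw [e3, e3] at h6
    exact h6
  -- the data for the abstract count
  obtain ⟨c, hc⟩ : ∃ c : Fin S → (Fin s → Fin K) → (Fin s → Fin K) → Fin (2 ^ w),
    c = fun a x y => D.enc (F x y) a := ⟨_, rfl⟩
  obtain ⟨sym, hsym⟩ : ∃ sym : Fin S → (Fin s → Fin K) → (Fin s → Fin K) → Fin (2 ^ b),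
      ∀ a, J a = false → ∀ x x' y y', sym a x y = sym a x' y' →
        sym a x y' = sym a x y ∧ c a x y = c a x' y' := by
    have h1 : ∀ a, ∃ sy : (Fin s → Fin K) → (Fin s → Fin K) → Fin (2 ^ b),
        J a = false → ∀ x x' y y', sy x y = sy x' y' →
          sy x y' = sy x y ∧ c a x y = c a x' y' := by
      intro a
      by_cases h2 : D.Simple b (fam N z) i j a
      · obtain ⟨sy, hsy⟩ := h2
        refine ⟨fun x y => sy (part N m i x) (part N m j y), ?_⟩
        intro _ x x' y y' h3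
        have h4 := hsy _ _ _ _ (hci x) (hci x') (hcj y) (hcj y') h3
        refine ⟨h4.1, ?_⟩
        rw [hc]
        simp only [hFe]
        exact h4.2
      · refine ⟨fun _ _ => ⟨0, by positivity⟩, ?_⟩
        intro h3
        rw [hJ] at h3
        simp [h2] at h3
    choose sym hsym using h1
    exact ⟨sym, hsym⟩
  obtain ⟨ok, hokd⟩ : ∃ ok : List (Fin (2 ^ w)) → (Fin s → Fin K) → (Fin s → Fin K) → Prop,
    ok = fun L x y => D.out i j L = (mat x y).image (el N) ∧ (mat x y).card ≤ h := ⟨_, rfl⟩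
  obtain ⟨β, hβ⟩ : ∃ β : ℝ, β = (1 - 1 / (4 * (K : ℝ))) ^ (s - h) *
    ((K : ℝ) ^ s * (K : ℝ) ^ s) ^ (1 - 1 / (1 + 4 / (K : ℝ))) := ⟨_, rfl⟩
  have hβ0 : 0 ≤ β := by rw [hβ]; positivity
  have hok : ∀ (L : List (Fin (2 ^ w))) (X Y : Finset (Fin s → Fin K)),
      ((((X ×ˢ Y).filter fun q => ok L q.1 q.2).card : ℕ) : ℝ) ≤
        β * ((X.card : ℝ) * Y.card) ^ (1 / (1 + 4 / (K : ℝ))) := by
    intro L X Y
    rcases ((X ×ˢ Y).filter fun q => ok L q.1 q.2).eq_empty_or_nonempty with h1 | ⟨q, hq⟩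
    · rw [h1, card_empty, Nat.cast_zero]
      positivity
    · rw [mem_filter, hokd] at hq
      obtain ⟨_, hq1, hq2⟩ := hq
      set I : Finset (Fin s) := (mat q.1 q.2).image Prod.fst with hI
      have hIc : I.card ≤ h := le_trans card_image_le hq2
      have h2 : ((X ×ˢ Y).filter fun q => ok L q.1 q.2) ⊆
          ((X ×ˢ Y).filter fun z => ∀ b, b ∉ I → z.1 b ≠ z.2 b) := by
        intro r hr
        rw [mem_filter, hokd] at hr
        rw [mem_filter]
        refine ⟨hr.1, ?_⟩
        intro β' hβ' heq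
        apply hβ'
        have h3 : (mat r.1 r.2).image (el N) = (mat q.1 q.2).image (el N) := by
          rw [← hr.2.1, ← hq1]
        have h4 : mat r.1 r.2 = mat q.1 q.2 := (image_injective el_inj) h3
        rw [hI, ← h4, mem_image]
        exact ⟨(β', r.1 β'), mem_mat.mpr ⟨rfl, heq.symm⟩, rfl⟩
      have h3 := count_rect hK I X Y
      have h4 : (1 - 1 / (4 * (K : ℝ))) ^ (s - I.card) ≤ (1 - 1 / (4 * (K : ℝ))) ^ (s - h) :=
        pow_le_pow_of_le_one hρ0 hρ1 (by omega)
      calc ((((X ×ˢ Y).filter fun q => ok L q.1 q.2).card : ℕ) : ℝ)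
          ≤ ((((X ×ˢ Y).filter fun z => ∀ b, b ∉ I → z.1 b ≠ z.2 b).card : ℕ) : ℝ) := by
            exact_mod_cast card_le_card h2
        _ ≤ _ := h3
        _ ≤ _ := by
            rw [hβ]
            gcongr
  have hmain := count_good (c := c) (J := J) (next := D.next i j) (ok := ok) hp hβ0
    Nat.one_le_two_pow Nat.one_le_two_pow hok sym hsym n k [] (fun _ => none) univ univ
  have hsub : (univ.filter fun q : (Fin s → Fin K) × (Fin s → Fin K) =>
      (mat q.1 q.2).card ≤ h ∧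
      (∃ t ≤ n, D.Answers (fam N (Function.update (Function.update z i q.1) j q.2)) i j t) ∧
      (D.joint b (fam N (Function.update (Function.update z i q.1) j q.2)) i j).card ≤ k) ⊆
      ((univ ×ˢ univ).filter fun q => good c J (D.next i j) ok n k [] (fun _ => none) q.1 q.2) := by
    intro q hq
    rw [mem_filter] at hq
    obtain ⟨_, hq1, ⟨t, ht, hq2⟩, hq3⟩ := hq
    rw [mem_filter]
    refine ⟨by simp, ?_⟩
    have hFq : fam N (Function.update (Function.update z i q.1) j q.2) = F q.1 q.2 := by rw [hF]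
    rw [hFq] at hq2 hq3
    have hmem : (fun a => c a q.1 q.2) = D.enc (F q.1 q.2) := by rw [hc]
    obtain ⟨hq4, hq5⟩ := hq2
    unfold Scheme.run at hq4 hq5
    have hstop := runc_stop t [] hq4 n ht
    apply good_of_run (D.joint b (F q.1 q.2) i j)
    · intro a v h
      exact absurd h (by simp)
    · simpa using hq3
    · intro n' a h1 h2
      unfold Scheme.joint
      rw [mem_filter]
      refine ⟨mem_univ _, ⟨n', ?_⟩, ?_⟩
      · unfold Scheme.run
        rw [hmem] at h1
        exact h1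
      · intro h3
        rw [hJ] at h2
        exact (of_decide_eq_true h2) (hS _ _ _ h3)
    · rw [hmem, hstop]
      exact hq4
    · rw [hmem, hstop, hokd]
      refine ⟨?_, hq1⟩
      rw [hq5, hF]
      unfold fam
      simp only [Function.update_self, Function.update_of_ne hij]
      rw [part_inter hij]
  refine le_trans (Nat.cast_le.mpr (card_le_card hsub)) (le_trans hmain (le_of_eq ?_))
  have hcard : ((univ : Finset (Fin s → Fin K)).card : ℝ) = (K : ℝ) ^ s := by
    rw [card_univ, Fintype.card_fun, Fintype.card_fin, Fintype.card_fin]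
    push_cast
    rfl
  rw [hcard, hβ]
  have hKs : (0 : ℝ) < (K : ℝ) ^ s * (K : ℝ) ^ s := by positivity
  have e : ((K : ℝ) ^ s * (K : ℝ) ^ s) ^ (1 - 1 / (1 + 4 / (K : ℝ))) *
      ((K : ℝ) ^ s * (K : ℝ) ^ s) ^ (1 / (1 + 4 / (K : ℝ))) = (K : ℝ) ^ s * (K : ℝ) ^ s := by
    rw [← Real.rpow_add hKs]
    have : 1 - 1 / (1 + 4 / (K : ℝ)) + 1 / (1 + 4 / (K : ℝ)) = 1 := by ring
    rw [this, Real.rpow_one]
  calc _ = ((2 ^ w : ℕ) : ℝ) ^ k * ((((2 ^ b : ℕ) : ℝ) ^ (1 - 1 / (1 + 4 / (K : ℝ)))) ^ n) *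
        (1 - 1 / (4 * (K : ℝ))) ^ (s - h) *
        (((K : ℝ) ^ s * (K : ℝ) ^ s) ^ (1 - 1 / (1 + 4 / (K : ℝ))) *
          ((K : ℝ) ^ s * (K : ℝ) ^ s) ^ (1 / (1 + 4 / (K : ℝ)))) := by ring
    _ = _ := by rw [e]

end

end Pool.Agent.V8H11.SI
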