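import Pool.Agent.V8H11.SI.Kernel

/-!
# The inequality for words of length `s`
-/

set_option autoImplicit false

namespace Pool.Agent.V8H11.SI

open Finset

variable {K : ℕ}

/-- The average over the words of length `s`. -/
noncomputable def avs (s : ℕ) (f : (Fin s → Fin K) → ℝ) : ℝ := (∑ x, f x) / (K : ℝ) ^ s

theorem avs_nonneg {s : ℕ} {f : (Fin s → Fin K) → ℝ} (hf : ∀ x, 0 ≤ f x) : 0 ≤ avs s f :=
  div_nonneg (Finset.sum_nonneg fun x _ => hf x) (by positivity)

theorem sum_cons {s : ℕ} (f : (Fin (s + 1) → Fin K) → ℝ) :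
    ∑ x, f x = ∑ a, ∑ x, f (Fin.cons a x) := by
  rw [← (Fin.consEquiv (fun _ : Fin (s + 1) => Fin K)).sum_comp, Fintype.sum_prod_type]
  rfl

theorem avs_succ {s : ℕ} (f : (Fin (s + 1) → Fin K) → ℝ) :
    avs (s + 1) f = av (fun a => avs s (fun x => f (Fin.cons a x))) := by
  unfold avs av
  rw [sum_cons, ← Finset.sum_div, div_div, pow_succ]

/-- The size of a function of a word. -/
noncomputable def nms (s : ℕ) (p : ℝ) (f : (Fin s → Fin K) → ℝ) : ℝ :=
  (avs s (fun x => f x ^ p)) ^ (1 / p)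

theorem nms_nonneg {s : ℕ} {p : ℝ} {f : (Fin s → Fin K) → ℝ} (hf : ∀ x, 0 ≤ f x) :
    0 ≤ nms s p f :=
  Real.rpow_nonneg (avs_nonneg fun x => Real.rpow_nonneg (hf x) _) _

theorem nms_succ {s : ℕ} {p : ℝ} (hp : 0 < p) {f : (Fin (s + 1) → Fin K) → ℝ}
    (hf : ∀ x, 0 ≤ f x) :
    nms (s + 1) p f = nm p (fun a => nms s p (fun x => f (Fin.cons a x))) := by
  unfold nms nm
  rw [avs_succ]
  congr 2
  funext a
  rw [← Real.rpow_mul (avs_nonneg fun x => Real.rpow_nonneg (hf _) _),
    one_div_mul_cancel hp.ne', Real.rpow_one]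

/-- The weight of a pair of letters: `i = true` for a free coordinate. -/
def kap (i : Bool) (a b : Fin K) : ℝ := if i then 1 else if a = b then 0 else 1

theorem kap_nonneg (i : Bool) (a b : Fin K) : 0 ≤ kap i a b := by
  unfold kap
  split_ifs <;> norm_num

/-- The factor of a coordinate. -/
noncomputable def rr (K : ℕ) (i : Bool) : ℝ := if i then 1 else 1 - 1 / (4 * (K : ℝ))

theorem rr_nonneg (hK : 4 ≤ K) (i : Bool) : 0 ≤ rr K i := by
  have hK4 : (4 : ℝ) ≤ K := by exact_mod_cast hK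
  unfold rr
  split_ifs
  · norm_num
  · have : 1 / (4 * (K : ℝ)) ≤ 1 := by
      rw [div_le_one (by positivity)]; linarith
    linarith

theorem kap_bound (hK : 4 ≤ K) (i : Bool) {f g : Fin K → ℝ} (hf : ∀ a, 0 ≤ f a)
    (hg : ∀ a, 0 ≤ g a) :
    (∑ a, ∑ b, kap i a b * (f a * g b)) / ((K : ℝ) * K) ≤
      rr K i * (nm (1 + 4 / K) f * nm (1 + 4 / K) g) := by
  have hK0 : (0 : ℝ) < K := by exact_mod_cast (by omega : 0 < K)
  have hp : (1 : ℝ) ≤ 1 + 4 / K := by
    have : (0 : ℝ) < 4 / K := by positivity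
    linarith
  cases i with
  | true =>
    have e : ∑ a, ∑ b, kap true a b * (f a * g b) = (∑ a, f a) * ∑ b, g b := by
      rw [Finset.sum_mul_sum]
      simp [kap]
    rw [e]
    have h1 := av_le_nm (by omega) hf hp
    have h2 := av_le_nm (by omega) hg hp
    have h3 : (∑ a, f a) * (∑ b, g b) / ((K : ℝ) * K) = av f * av g := by
      unfold av; rw [div_mul_div_comm]
    rw [h3]
    simp only [rr, if_true, one_mul]
    exact mul_le_mul h1 h2 (av_nonneg hg) (nm_nonneg _ hf)
  | false =>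
    have e : ∑ a, ∑ b, kap false a b * (f a * g b) = (∑ a, f a) * (∑ b, g b) - ∑ a, f a * g a := by
      rw [Finset.sum_mul_sum, ← Finset.sum_sub_distrib]
      refine Finset.sum_congr rfl fun a _ => ?_
      have : ∀ b, kap false a b * (f a * g b) = f a * g b - (if a = b then f a * g b else 0) := by
        intro b
        unfold kap
        by_cases h : a = b
        · simp [h]
        · simp [h]
      rw [Finset.sum_congr rfl fun b _ => this b, Finset.sum_sub_distrib]
      simp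
    rw [e]
    have h3 : ((∑ a, f a) * (∑ b, g b) - ∑ a, f a * g a) / ((K : ℝ) * K) =
        av f * av g - av (fun a => f a * g a) / K := by
      unfold av
      field_simp
    rw [h3]
    have := kernel_ne hK hf hg
    simpa [rr] using this

/-- The bilinear form. -/
noncomputable def bil (s : ℕ) (I : Fin s → Bool) (f g : (Fin s → Fin K) → ℝ) : ℝ :=
  (∑ x, ∑ y, f x * g y * ∏ b, kap (I b) (x b) (y b)) / ((K : ℝ) ^ s * (K : ℝ) ^ s)

theorem bil_succ {s : ℕ} (I : Fin (s + 1) → Bool) (f g : (Fin (s + 1) → Fin K) → ℝ) :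
    bil (s + 1) I f g = (∑ a, ∑ b, kap (I 0) a b *
      bil s (fun i => I i.succ) (fun x => f (Fin.cons a x)) (fun y => g (Fin.cons b y))) /
        ((K : ℝ) * K) := by
  unfold bil
  rw [sum_cons]
  have e : ∀ a : Fin K, ∑ x, ∑ y, f (Fin.cons a x) * g y *
      ∏ b, kap (I b) ((Fin.cons a x : Fin (s + 1) → Fin K) b) (y b) =
      ∑ b, kap (I 0) a b * ∑ x, ∑ y, f (Fin.cons a x) * g (Fin.cons b y) *
        ∏ i, kap (I i.succ) (x i) (y i) := by
    intro a
    have e1 : ∀ x : Fin s → Fin K, ∑ y, f (Fin.cons a x) * g y *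
        ∏ b, kap (I b) ((Fin.cons a x : Fin (s + 1) → Fin K) b) (y b) =
        ∑ b, kap (I 0) a b * ∑ y, f (Fin.cons a x) * g (Fin.cons b y) *
          ∏ i, kap (I i.succ) (x i) (y i) := by
      intro x
      rw [sum_cons]
      refine Finset.sum_congr rfl fun b _ => ?_
      rw [Finset.mul_sum]
      refine Finset.sum_congr rfl fun y _ => ?_
      rw [Fin.prod_univ_succ]
      simp only [Fin.cons_zero, Fin.cons_succ]
      ring
    rw [Finset.sum_congr rfl fun x _ => e1 x, Finset.sum_comm]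
    refine Finset.sum_congr rfl fun b _ => ?_
    rw [Finset.mul_sum]
  rw [Finset.sum_congr rfl fun a _ => e a]
  have e2 : ∀ a b : Fin K, kap (I 0) a b *
      ((∑ x, ∑ y, f (Fin.cons a x) * g (Fin.cons b y) * ∏ i, kap (I i.succ) (x i) (y i)) /
        ((K : ℝ) ^ s * (K : ℝ) ^ s)) =
      (kap (I 0) a b * ∑ x, ∑ y, f (Fin.cons a x) * g (Fin.cons b y) *
        ∏ i, kap (I i.succ) (x i) (y i)) / ((K : ℝ) ^ s * (K : ℝ) ^ s) := by
    intro a b; rw [mul_div_assoc]
  simp only [e2]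
  simp only [← Finset.sum_div]
  rw [div_div]
  congr 1
  ring

theorem bil_bound (hK : 4 ≤ K) : ∀ (s : ℕ) (I : Fin s → Bool) (f g : (Fin s → Fin K) → ℝ),
    (∀ x, 0 ≤ f x) → (∀ x, 0 ≤ g x) →
    bil s I f g ≤ (∏ b, rr K (I b)) * (nms s (1 + 4 / K) f * nms s (1 + 4 / K) g) := by
  have hK0 : (0 : ℝ) < K := by exact_mod_cast (by omega : 0 < K)
  have hp : (0 : ℝ) < 1 + 4 / K := by positivity
  intro s
  induction s with
  | zero =>
    intro I f g hf hg
    have e1 : ∀ f : (Fin 0 → Fin K) → ℝ, (∀ x, 0 ≤ f x) → nms 0 (1 + 4 / K) f = f default := by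
      intro f hf
      unfold nms avs
      rw [Fintype.sum_unique, pow_zero, div_one, ← Real.rpow_mul (hf _),
        mul_one_div_cancel hp.ne', Real.rpow_one]
    rw [e1 f hf, e1 g hg]
    unfold bil
    rw [Fintype.sum_unique, Fintype.sum_unique]
    simp
  | succ s ih =>
    intro I f g hf hg
    rw [bil_succ, nms_succ hp hf, nms_succ hp hg, Fin.prod_univ_succ]
    set φ : Fin K → ℝ := fun a => nms s (1 + 4 / K) (fun x => f (Fin.cons a x)) with hφ
    set ψ : Fin K → ℝ := fun a => nms s (1 + 4 / K) (fun x => g (Fin.cons a x)) with hψ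
    have hφ0 : ∀ a, 0 ≤ φ a := fun a => nms_nonneg fun x => hf _
    have hψ0 : ∀ a, 0 ≤ ψ a := fun a => nms_nonneg fun x => hg _
    have hP : 0 ≤ ∏ i : Fin s, rr K (I i.succ) := Finset.prod_nonneg fun i _ => rr_nonneg hK _
    have h1 : ∑ a, ∑ b, kap (I 0) a b * bil s (fun i => I i.succ) (fun x => f (Fin.cons a x))
        (fun y => g (Fin.cons b y)) ≤
        (∏ i : Fin s, rr K (I i.succ)) * ∑ a, ∑ b, kap (I 0) a b * (φ a * ψ b) := by
      rw [Finset.mul_sum]
      refine Finset.sum_le_sum fun a _ => ?_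
      rw [Finset.mul_sum]
      refine Finset.sum_le_sum fun b _ => ?_
      have := ih (fun i => I i.succ) (fun x => f (Fin.cons a x)) (fun y => g (Fin.cons b y))
        (fun x => hf _) (fun x => hg _)
      calc kap (I 0) a b * bil s (fun i => I i.succ) (fun x => f (Fin.cons a x))
            (fun y => g (Fin.cons b y))
          ≤ kap (I 0) a b * ((∏ i : Fin s, rr K (I i.succ)) * (φ a * ψ b)) :=
            mul_le_mul_of_nonneg_left this (kap_nonneg _ _ _)
        _ = _ := by ring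
    have h2 := kap_bound hK (I 0) hφ0 hψ0
    calc (∑ a, ∑ b, kap (I 0) a b * bil s (fun i => I i.succ) (fun x => f (Fin.cons a x))
          (fun y => g (Fin.cons b y))) / ((K : ℝ) * K)
        ≤ ((∏ i : Fin s, rr K (I i.succ)) * ∑ a, ∑ b, kap (I 0) a b * (φ a * ψ b)) /
          ((K : ℝ) * K) := by gcongr
      _ = (∏ i : Fin s, rr K (I i.succ)) * ((∑ a, ∑ b, kap (I 0) a b * (φ a * ψ b)) /
          ((K : ℝ) * K)) := by rw [mul_div_assoc]
      _ ≤ (∏ i : Fin s, rr K (I i.succ)) *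
          (rr K (I 0) * (nm (1 + 4 / K) φ * nm (1 + 4 / K) ψ)) := by gcongr
      _ = _ := by ring

/-- The number of pairs in a rectangle which differ outside of `I`. -/
theorem count_rect (hK : 4 ≤ K) {s : ℕ} (I : Finset (Fin s)) (X Y : Finset (Fin s → Fin K)) :
    ((((X ×ˢ Y).filter fun z => ∀ b, b ∉ I → z.1 b ≠ z.2 b).card : ℕ) : ℝ) ≤
      (1 - 1 / (4 * (K : ℝ))) ^ (s - I.card) * ((K : ℝ) ^ s * (K : ℝ) ^ s) ^ (1 - 1 / (1 + 4 / (K : ℝ))) *
        ((X.card : ℝ) * Y.card) ^ (1 / (1 + 4 / (K : ℝ))) := by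
  classical
  have hK0 : (0 : ℝ) < K := by exact_mod_cast (by omega : 0 < K)
  have hp : (0 : ℝ) < 1 + 4 / K := by positivity
  set p : ℝ := 1 + 4 / (K : ℝ) with hpd
  set f : (Fin s → Fin K) → ℝ := fun x => if x ∈ X then 1 else 0 with hf
  set g : (Fin s → Fin K) → ℝ := fun x => if x ∈ Y then 1 else 0 with hg
  have hf0 : ∀ x, 0 ≤ f x := by intro x; rw [hf]; dsimp only; split_ifs <;> norm_num
  have hg0 : ∀ x, 0 ≤ g x := by intro x; rw [hg]; dsimp only; split_ifs <;> norm_num
  have hb := bil_bound hK s (fun b => decide (b ∈ I)) f g hf0 hg0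
  have hn : ∀ Z : Finset (Fin s → Fin K), nms s p (fun x => if x ∈ Z then (1 : ℝ) else 0) =
      ((Z.card : ℝ) / (K : ℝ) ^ s) ^ (1 / p) := by
    intro Z
    unfold nms avs
    congr 2
    have : ∀ x : Fin s → Fin K, (if x ∈ Z then (1 : ℝ) else 0) ^ p = if x ∈ Z then (1 : ℝ) else 0 := by
      intro x
      split_ifs
      · exact Real.one_rpow _
      · exact Real.zero_rpow hp.ne'
    rw [Finset.sum_congr rfl fun x _ => this x]
    simp
  rw [hn X, hn Y] at hb
  have hprod : ∏ b : Fin s, rr K (decide (b ∈ I)) = (1 - 1 / (4 * (K : ℝ))) ^ (s - I.card) := by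
    unfold rr
    rw [Finset.prod_ite, Finset.prod_const_one, one_mul, Finset.prod_const]
    congr 1
    have : (Finset.univ.filter fun b : Fin s => ¬ (decide (b ∈ I) = true)) = Iᶜ := by
      ext b; simp
    rw [this, Finset.card_compl, Fintype.card_fin]
  rw [hprod] at hb
  have hcount : ∑ x, ∑ y, f x * g y * ∏ b, kap (decide (b ∈ I)) (x b) (y b) =
      ((((X ×ˢ Y).filter fun z => ∀ b, b ∉ I → z.1 b ≠ z.2 b).card : ℕ) : ℝ) := by
    rw [← Fintype.sum_prod_type' (fun x y => f x * g y * ∏ b, kap (decide (b ∈ I)) (x b) (y b))]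
    have hterm : ∀ z : (Fin s → Fin K) × (Fin s → Fin K),
        f z.1 * g z.2 * ∏ b, kap (decide (b ∈ I)) (z.1 b) (z.2 b) =
        if z ∈ (X ×ˢ Y).filter (fun z => ∀ b, b ∉ I → z.1 b ≠ z.2 b) then 1 else 0 := by
      intro z
      by_cases h1 : z.1 ∈ X
      · by_cases h2 : z.2 ∈ Y
        · by_cases h3 : ∀ b, b ∉ I → z.1 b ≠ z.2 b
          · have : ∏ b, kap (decide (b ∈ I)) (z.1 b) (z.2 b) = 1 := by
              apply Finset.prod_eq_one
              intro b _
              unfold kap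
              by_cases hb : b ∈ I
              · simp [hb]
              · simp [hb, h3 b hb]
            rw [this, if_pos (Finset.mem_filter.mpr ⟨Finset.mem_product.mpr ⟨h1, h2⟩, h3⟩)]
            simp [hf, hg, h1, h2]
          · push Not at h3
            obtain ⟨b, hb1, hb2⟩ := h3
            have : ∏ b, kap (decide (b ∈ I)) (z.1 b) (z.2 b) = 0 := by
              apply Finset.prod_eq_zero (Finset.mem_univ b)
              unfold kap
              simp [hb1, hb2]
            rw [this, mul_zero, if_neg]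
            intro hcon
            exact (Finset.mem_filter.mp hcon).2 b hb1 hb2
        · simp [hg, h2]
      · simp [hf, h1]
    rw [Finset.sum_congr rfl fun z _ => hterm z, Finset.sum_ite_mem, Finset.univ_inter,
      Finset.sum_const, nsmul_eq_mul, mul_one]
  unfold bil at hb
  rw [hcount] at hb
  have hKs : (0 : ℝ) < (K : ℝ) ^ s * (K : ℝ) ^ s := by positivity
  rw [div_le_iff₀ hKs] at hb
  refine le_trans hb (le_of_eq ?_)
  have e1 : ((X.card : ℝ) / (K : ℝ) ^ s) ^ (1 / p) * ((Y.card : ℝ) / (K : ℝ) ^ s) ^ (1 / p) =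
      ((X.card : ℝ) * Y.card) ^ (1 / p) / ((K : ℝ) ^ s * (K : ℝ) ^ s) ^ (1 / p) := by
    rw [← Real.mul_rpow (by positivity) (by positivity), div_mul_div_comm,
      Real.div_rpow (by positivity) hKs.le]
  have e2 : ((K : ℝ) ^ s * (K : ℝ) ^ s) ^ (1 - 1 / p) =
      ((K : ℝ) ^ s * (K : ℝ) ^ s) / ((K : ℝ) ^ s * (K : ℝ) ^ s) ^ (1 / p) := by
    rw [Real.rpow_sub hKs, Real.rpow_one]
  rw [e1, e2]
  ring

end Pool.Agent.V8H11.SI
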